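import Mathlib

set_option autoImplicit false

/-! # Estimates for iterated logarithms -/

open Filter
open scoped Topology

namespace Pool.Agent.R528.RM

/-- `log log x` -/
noncomputable def ll (x : ℝ) : ℝ := Real.log (Real.log x)

lemma ll_mono {x y : ℝ} (hx : Real.exp 1 ≤ x) (h : x ≤ y) : ll x ≤ ll y := by
  have h0 : 0 < x := lt_of_lt_of_le (Real.exp_pos 1) hx
  have h1 : 1 ≤ Real.log x := by
    rw [← Real.log_exp 1]
    exact Real.log_le_log (Real.exp_pos 1) hx
  exact Real.log_le_log (by linarith) (Real.log_le_log h0 h)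

lemma ev_basic : ∀ᶠ L : ℝ in atTop, 1000 ≤ L ∧ 1 ≤ ll L ∧ (ll L) ^ 2 ≤ L / 100 ∧
    ll (L + 2) ≤ ll L + 1 ∧ ll (L + 1) ≤ ll L + 1 ∧ ll L ≤ ll (L + 1) ∧ ll L ≤ ll (L + 2) := by
  have t1 := Real.tendsto_log_atTop
  have h1 : ∀ᶠ L : ℝ in atTop, 1 ≤ ll L := (t1.comp t1).eventually_ge_atTop 1
  have h2 : ∀ᶠ L : ℝ in atTop, Real.log L ^ 2 ≤ L / 100 := by
    have := (Real.isLittleO_pow_log_id_atTop (n := 2)).def (show (0 : ℝ) < 1 / 100 by norm_num)
    filter_upwards [this, eventually_ge_atTop (1 : ℝ)] with L h h'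
    rw [Real.norm_of_nonneg (by positivity), id, Real.norm_of_nonneg (by linarith)] at h
    linarith
  filter_upwards [eventually_ge_atTop (1000 : ℝ), h1, h2] with L hL h1 h2
  have he : Real.exp 1 ≤ L := by
    have := Real.exp_one_lt_d9
    linarith
  have hlog1 : 1 ≤ Real.log L := by
    rw [← Real.log_exp 1]
    exact Real.log_le_log (Real.exp_pos 1) he
  have h3 : ll L ≤ Real.log L := by
    have := Real.log_le_sub_one_of_pos (show 0 < Real.log L by linarith)
    unfold ll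
    linarith
  have h4 : ll (L + 2) ≤ ll L + 1 := by
    have h5 : Real.log (L + 2) ≤ 2 * Real.log L := by
      have e : 2 * Real.log L = Real.log (L ^ 2) := by rw [Real.log_pow]; norm_num
      rw [e]
      exact Real.log_le_log (by linarith) (by nlinarith)
    have h6 : Real.log (2 * Real.log L) = Real.log 2 + ll L := by
      rw [Real.log_mul (by norm_num) (by linarith)]
      rfl
    have h7 : ll (L + 2) ≤ Real.log (2 * Real.log L) := by
      have h8 : 0 < Real.log (L + 2) := Real.log_pos (by linarith)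
      exact Real.log_le_log h8 h5
    have h8 : Real.log 2 ≤ 1 := by
      have := Real.log_two_lt_d9
      linarith
    linarith
  refine ⟨hL, h1, ?_, h4, (ll_mono (by linarith) (by linarith)).trans h4, ll_mono he (by linarith),
    ll_mono he (by linarith)⟩
  have h9 : ll L ^ 2 ≤ Real.log L ^ 2 := pow_le_pow_left₀ (by linarith) h3 2
  linarith

/-- runs of length `G ≤ (L + 1)² + θ (L + 1) log log (L + 1) + 1` -/
theorem ev_run (θ δ : ℝ) (hθ : 0 ≤ θ) (hθ1 : θ ≤ 2) (hδ : 0 < δ) (hδ1 : δ ≤ 1) : ∀ᶠ L : ℝ in atTop,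
    ∀ G : ℕ, (G : ℝ) ≤ (L + 1) ^ 2 + θ * (L + 1) * ll (L + 1) + 1 → L ^ 2 ≤ G →
      0 < L - 1 - δ * ll (L + 2) ∧ 1 / (L - 1 - δ * ll (L + 2)) ≤ 1 / 2 ∧
      Real.exp (-(L + (θ + δ) * ll L + 40)) ≤ (1 - 1 / (L - 1 - δ * ll (L + 2))) ^ G ∧
      (G : ℝ) * (1 / (L + 2 + δ * ll (L + 2)) * (1 - 1 / (L - 1 - δ * ll (L + 2))) ^ G) ≤ 1 ∧
      (G : ℝ) ≤ 2 * L ^ 2 ∧ 1 / (2 * L) ≤ 1 / (L + 2 + δ * ll (L + 2)) := by
  have hexp : ∀ᶠ L : ℝ in atTop, 4 * L ≤ Real.exp L := by
    filter_upwards [eventually_ge_atTop (8 : ℝ)] with L hL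
    have := Real.quadratic_le_exp_of_nonneg (show 0 ≤ L by linarith)
    nlinarith
  filter_upwards [ev_basic, hexp] with L hb hexp G hG hG1
  obtain ⟨hL, h1, h2, h3, h4, h5, h6⟩ := hb
  obtain ⟨lam, hlam⟩ : ∃ lam, lam = ll L := ⟨_, rfl⟩
  obtain ⟨a, ha⟩ : ∃ a, a = δ * ll (L + 2) := ⟨_, rfl⟩
  rw [← hlam] at h1 h2 h3 h4 h5 h6 ⊢
  have ha0 : 0 ≤ a := by rw [ha]; exact mul_nonneg hδ.le (by linarith)
  have ha1 : a ≤ δ * (lam + 1) := by rw [ha]; exact mul_le_mul_of_nonneg_left h3 hδ.le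
  have ha2 : a ≤ lam + 1 := by nlinarith
  rw [← ha]
  have hlamL : lam ≤ L / 100 := by nlinarith
  have hD : L / 2 ≤ L - 1 - a := by linarith
  obtain ⟨D, hDd⟩ : ∃ D, D = L - 1 - a := ⟨_, rfl⟩
  rw [← hDd] at hD ⊢
  have hD0 : 0 < D := by linarith
  have hu : 1 / D ≤ 1 / 2 := by
    apply one_div_le_one_div_of_le (by norm_num)
    linarith
  have hG' : (G : ℝ) ≤ (L + 1) ^ 2 + θ * (L + 1) * (lam + 1) + 1 := by
    refine hG.trans ?_
    have : θ * (L + 1) * ll (L + 1) ≤ θ * (L + 1) * (lam + 1) :=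
      mul_le_mul_of_nonneg_left h4 (by positivity)
    linarith
  have hG2 : (G : ℝ) ≤ 2 * L ^ 2 := by
    refine hG'.trans ?_
    have h7 : θ * (L + 1) * (lam + 1) ≤ 2 * (L + 1) * (lam + 1) := by
      have : 0 ≤ (L + 1) * (lam + 1) := by positivity
      nlinarith
    nlinarith
  -- `G / D ≤ L + θ lam + a + 10`
  have hkey : (G : ℝ) * (1 / D) ≤ L + θ * lam + a + 10 := by
    rw [mul_one_div, div_le_iff₀ hD0]
    have hm : θ * lam ≤ 2 * lam := mul_le_mul_of_nonneg_right hθ1 (by linarith)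
    have hm0 : 0 ≤ θ * lam := mul_nonneg hθ (by linarith)
    have h8 : (1 + a) * (θ * lam + a + 10) ≤ (lam + 2) * (3 * lam + 11) := by
      apply mul_le_mul (by linarith) _ (by positivity) (by linarith)
      linarith
    have h9 : (lam + 2) * (3 * lam + 11) = 3 * lam ^ 2 + 17 * lam + 22 := by ring
    have h10 : lam ≤ lam ^ 2 := by nlinarith
    have e1 : (L + θ * lam + a + 10) * D =
        L ^ 2 + L * (θ * lam) + 9 * L - (1 + a) * (θ * lam + a + 10) := by
      rw [hDd]; ring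
    have e2 : (L + 1) ^ 2 + θ * (L + 1) * (lam + 1) + 1 =
        L ^ 2 + L * (θ * lam) + θ * L + 2 * L + θ * lam + θ + 2 := by ring
    have e3 : θ * L ≤ 2 * L := mul_le_mul_of_nonneg_right hθ1 (by linarith)
    rw [e1]
    rw [e2] at hG'
    linarith
  have hkey2 : (G : ℝ) * (1 / D) ^ 2 ≤ 8 := by
    rw [one_div, inv_pow, ← div_eq_mul_inv, div_le_iff₀ (by positivity)]
    have h8 : (L / 2) ^ 2 ≤ D ^ 2 := pow_le_pow_left₀ (by linarith) hD 2
    have h9 : (L / 2) ^ 2 = L ^ 2 / 4 := by ring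
    linarith
  have hlow : Real.exp (-(L + (θ + δ) * lam + 40)) ≤ (1 - 1 / D) ^ G := by
    have hpos : 0 < 1 - 1 / D := by linarith
    have h7 : 1 - (1 - 1 / D)⁻¹ ≤ Real.log (1 - 1 / D) := Real.one_sub_inv_le_log_of_pos hpos
    have h8 : -(1 / D + 2 * (1 / D) ^ 2) ≤ 1 - (1 - 1 / D)⁻¹ := by
      have hu0 : 0 < 1 / D := by positivity
      obtain ⟨u, hud⟩ : ∃ u, u = 1 / D := ⟨_, rfl⟩
      rw [← hud] at hu hu0 hpos ⊢
      have h9 : (1 - u)⁻¹ ≤ 1 + u + 2 * u ^ 2 := by
        rw [inv_le_iff_one_le_mul₀ hpos]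
        nlinarith [mul_nonneg (sq_nonneg u) (show 0 ≤ 1 - 2 * u by linarith)]
      linarith
    have h9 : (1 - 1 / D) ^ G = Real.exp (G * Real.log (1 - 1 / D)) := by
      rw [mul_comm, Real.exp_mul, Real.exp_log hpos, Real.rpow_natCast]
    rw [h9]
    apply Real.exp_le_exp.2
    have h10 : (G : ℝ) * -(1 / D + 2 * (1 / D) ^ 2) ≤ G * Real.log (1 - 1 / D) :=
      mul_le_mul_of_nonneg_left (h8.trans h7) (Nat.cast_nonneg G)
    have h11 : (G : ℝ) * -(1 / D + 2 * (1 / D) ^ 2) = -(G * (1 / D)) - 2 * (G * (1 / D) ^ 2) := by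
      ring
    have h12 : δ * (lam + 1) = δ * lam + δ := by ring
    have h13 : (θ + δ) * lam = θ * lam + δ * lam := by ring
    linarith
  have hll : 1 / (L + 2 + a) ≤ 1 := by
    rw [div_le_one (by linarith)]
    linarith
  have hl2 : 1 / (L + 2 + a) ≤ 1 / L := one_div_le_one_div_of_le (by linarith) (by linarith)
  refine ⟨hD0, hu, hlow, ?_, hG2, one_div_le_one_div_of_le (by linarith) (by linarith)⟩
  -- the product is at most one
  have h7 : (1 - 1 / D) ^ G ≤ Real.exp (-L) := by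
    have h8 : 1 - 1 / D ≤ Real.exp (-(1 / D)) := by
      have := Real.add_one_le_exp (-(1 / D))
      linarith
    have h9 : (1 - 1 / D) ^ G ≤ Real.exp (-(1 / D)) ^ G := pow_le_pow_left₀ (by linarith) h8 G
    refine h9.trans ?_
    rw [← Real.exp_nat_mul]
    apply Real.exp_le_exp.2
    have h10 : L ≤ G * (1 / D) := by
      rw [mul_one_div, le_div_iff₀ hD0]
      have : L * D ≤ L * L := mul_le_mul_of_nonneg_left (by linarith) (by linarith)
      linarith
    linarith
  have h8 : (G : ℝ) * (1 / (L + 2 + a) * (1 - 1 / D) ^ G) ≤ 2 * L ^ 2 * (1 / L * Real.exp (-L)) := by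
    apply mul_le_mul hG2 _ _ (by positivity)
    · exact mul_le_mul hl2 h7 (pow_nonneg (by linarith) _) (by positivity)
    · have : 0 ≤ (1 - 1 / D) ^ G := pow_nonneg (by linarith) _
      have : 0 ≤ 1 / (L + 2 + a) := by
        have : 0 < L + 2 + a := by linarith
        positivity
      positivity
  refine h8.trans ?_
  have h9 : 2 * L ^ 2 * (1 / L * Real.exp (-L)) = 2 * L / Real.exp L := by
    rw [Real.exp_neg]
    field_simp
  rw [h9, div_le_one (Real.exp_pos _)]
  linarith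

/-- runs of length `G ≥ L² + θ L log log L` -/
theorem ev_fin (θ δ : ℝ) (hθ1 : θ ≤ 2) (hδ : 0 < δ) (hδ1 : δ ≤ 1) : ∀ᶠ L : ℝ in atTop,
    ∀ G : ℕ, L ^ 2 + θ * L * ll L ≤ G →
      0 < L - 1 - δ * ll (L + 2) ∧ 1 / (L - 1 - δ * ll (L + 2)) ≤ 2 / L ∧
      1 / (L + 2 + δ * ll (L + 2)) ≤ 1 ∧ 0 < L + 2 + δ * ll (L + 2) ∧
      (1 - 1 / (L + 2 + δ * ll (L + 2))) ^ G ≤ Real.exp (-(L + (θ - δ) * ll L - 4)) := by
  filter_upwards [ev_basic] with L hb G hG
  obtain ⟨hL, h1, h2, h3, h4, h5, h6⟩ := hb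
  obtain ⟨lam, hlam⟩ : ∃ lam, lam = ll L := ⟨_, rfl⟩
  obtain ⟨a, ha⟩ : ∃ a, a = δ * ll (L + 2) := ⟨_, rfl⟩
  rw [← hlam] at h1 h2 h3 h4 h5 h6 hG ⊢
  have ha0 : 0 ≤ a := by rw [ha]; exact mul_nonneg hδ.le (by linarith)
  have ha1 : a ≤ δ * (lam + 1) := by rw [ha]; exact mul_le_mul_of_nonneg_left h3 hδ.le
  have ha2 : a ≤ lam + 1 := by nlinarith
  rw [← ha]
  have hlamL : lam ≤ L / 100 := by nlinarith
  have hD' : 0 < L + 2 + a := by linarith
  have hl1 : 1 / (L + 2 + a) ≤ 1 := by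
    rw [div_le_one (by linarith)]
    linarith
  refine ⟨by linarith, ?_, hl1, hD', ?_⟩
  · rw [div_le_div_iff₀ (by linarith) (by linarith)]
    linarith
  have h8 : 1 - 1 / (L + 2 + a) ≤ Real.exp (-(1 / (L + 2 + a))) := by
    have := Real.add_one_le_exp (-(1 / (L + 2 + a)))
    linarith
  have h9 : (1 - 1 / (L + 2 + a)) ^ G ≤ Real.exp (-(1 / (L + 2 + a))) ^ G :=
    pow_le_pow_left₀ (by linarith) h8 G
  refine h9.trans ?_
  rw [← Real.exp_nat_mul]
  apply Real.exp_le_exp.2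
  have h10 : L + θ * lam - a - 3 ≤ G * (1 / (L + 2 + a)) := by
    rw [mul_one_div, le_div_iff₀ hD']
    refine le_trans ?_ hG
    have h11 : (2 + a) * (θ * lam - a - 3) ≤ (lam + 3) * (2 * lam) := by
      have h12 : θ * lam - a - 3 ≤ 2 * lam := by nlinarith
      calc (2 + a) * (θ * lam - a - 3) ≤ (2 + a) * (2 * lam) :=
            mul_le_mul_of_nonneg_left h12 (by linarith)
        _ ≤ (lam + 3) * (2 * lam) := mul_le_mul_of_nonneg_right (by linarith) (by linarith)
    nlinarith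
  have h11 : δ * (lam + 1) = δ * lam + δ := by ring
  nlinarith

/-- divergence -/
theorem div_sum (c : ℝ) (hc : 0 < c) (i₁ : ℕ) (hi₁ : 3 ≤ i₁) (f : ℕ → ℝ)
    (hf : ∀ i, i₁ ≤ i → c / ((i : ℝ) * Real.log 2 * Real.log ((i : ℝ) * Real.log 2)) ≤ f i)
    (hlog : ∀ i : ℕ, i₁ ≤ i → 1 ≤ Real.log ((i : ℝ) * Real.log 2)) :
    Tendsto (fun n => ∑ i ∈ Finset.range n, f (i₁ + i)) atTop atTop := by
  have h1 : ∀ n : ℕ, c * (ll ((i₁ + n : ℕ) : ℝ) - ll (i₁ : ℝ)) ≤ ∑ i ∈ Finset.range n, f (i₁ + i) := by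
    intro n
    induction n with
    | zero => simp
    | succ n ih =>
      rw [Finset.sum_range_succ]
      have hi : i₁ ≤ i₁ + n := by omega
      have h2 := hf (i₁ + n) hi
      have h3 := hlog (i₁ + n) hi
      have hpos : (3 : ℝ) ≤ ((i₁ + n : ℕ) : ℝ) := by
        exact_mod_cast (by omega : 3 ≤ i₁ + n)
      obtain ⟨x, hx⟩ : ∃ x : ℝ, x = ((i₁ + n : ℕ) : ℝ) := ⟨_, rfl⟩
      have hx1 : ((i₁ + (n + 1) : ℕ) : ℝ) = x + 1 := by rw [hx]; push_cast; ring
      rw [hx1]
      rw [← hx] at h2 h3 ih hpos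
      have hl2 : Real.log 2 ≤ 1 := by
        have := Real.log_two_lt_d9
        linarith
      have hl20 : 0 < Real.log 2 := Real.log_pos (by norm_num)
      have hlx : 1 ≤ Real.log x := by
        refine h3.trans (Real.log_le_log (by positivity) ?_)
        nlinarith
      have h4 : c / (x * Real.log x) ≤ f (i₁ + n) := by
        refine le_trans ?_ h2
        apply div_le_div_of_nonneg_left hc.le (by positivity)
        apply mul_le_mul _ _ (by linarith) (by linarith)
        · nlinarith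
        · refine Real.log_le_log (by positivity) ?_
          nlinarith
      have h5 : ll (x + 1) - ll x ≤ 1 / (x * Real.log x) := by
        unfold ll
        have h6 : 0 < Real.log (x + 1) := Real.log_pos (by linarith)
        rw [← Real.log_div h6.ne' (by linarith)]
        have h7 : Real.log (x + 1) / Real.log x ≤ 1 + 1 / (x * Real.log x) := by
          have h8 : Real.log (x + 1) ≤ Real.log x + 1 / x := by
            have h9 : Real.log (x + 1) = Real.log x + Real.log (1 + 1 / x) := by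
              rw [← Real.log_mul (by linarith) (by positivity)]
              congr 1
              field_simp
            have h10 := Real.log_le_sub_one_of_pos (show 0 < 1 + 1 / x by positivity)
            linarith
          rw [div_le_iff₀ (by linarith)]
          have h11 : (1 + 1 / (x * Real.log x)) * Real.log x = Real.log x + 1 / x := by
            field_simp
          linarith
        have h8 := Real.log_le_sub_one_of_pos (show 0 < Real.log (x + 1) / Real.log x by positivity)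
        linarith
      have h6 : c * (ll (x + 1) - ll x) ≤ c / (x * Real.log x) := by
        calc c * (ll (x + 1) - ll x) ≤ c * (1 / (x * Real.log x)) := mul_le_mul_of_nonneg_left h5 hc.le
          _ = _ := by ring
      nlinarith
  refine tendsto_atTop_mono h1 ?_
  have t1 := Real.tendsto_log_atTop
  have t2 : Tendsto (fun n : ℕ => ((i₁ + n : ℕ) : ℝ)) atTop atTop := by
    refine tendsto_natCast_atTop_atTop.comp ?_
    exact tendsto_atTop_mono (fun n => Nat.le_add_left n i₁) tendsto_id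
  have t3 : Tendsto (fun n : ℕ => ll ((i₁ + n : ℕ) : ℝ)) atTop atTop := (t1.comp t1).comp t2
  exact (tendsto_atTop_add_const_right _ _ t3).const_mul_atTop hc

/-- `log ^ p` is monotone -/
lemma log_rpow_mono {p x y : ℝ} (hp : 0 ≤ p) (hx : 1 ≤ x) (h : x ≤ y) :
    (Real.log x) ^ p ≤ (Real.log y) ^ p :=
  Real.rpow_le_rpow (Real.log_nonneg hx) (Real.log_le_log (by linarith) h) hp

lemma cond_sum (p : ℝ) (hp : 1 < p) :
    Summable (fun n : ℕ => 1 / (((n : ℝ) + 1) * (Real.log ((n : ℝ) + 3)) ^ p)) := by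
  have hlogpos : ∀ n : ℕ, 0 < Real.log ((n : ℝ) + 3) := fun n => Real.log_pos (by
    have : (0 : ℝ) ≤ n := Nat.cast_nonneg n
    linarith)
  rw [← summable_condensed_iff_of_nonneg]
  · have h1 : Summable (fun k : ℕ => (1 / (Real.log 2) ^ p) * (1 / (k : ℝ) ^ p)) :=
      (Real.summable_one_div_nat_rpow.2 hp).mul_left _
    rw [← summable_nat_add_iff 1] at h1 ⊢
    refine Summable.of_nonneg_of_le (fun k => ?_) (fun k => ?_) h1
    · have := hlogpos (2 ^ (k + 1))
      positivity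
    · push_cast
      have hk : (0 : ℝ) < (k : ℝ) + 1 := by positivity
      have hl2 : 0 < Real.log 2 := Real.log_pos (by norm_num)
      have h2 : (Real.log 2) ^ p * ((k : ℝ) + 1) ^ p ≤ (Real.log (2 ^ (k + 1) + 3)) ^ p := by
        rw [← Real.mul_rpow hl2.le hk.le]
        apply Real.rpow_le_rpow (by positivity) _ (by linarith)
        have h3 : Real.log 2 * ((k : ℝ) + 1) = Real.log (2 ^ (k + 1)) := by
          rw [Real.log_pow]; push_cast; ring
        rw [h3]
        exact Real.log_le_log (by positivity) (by linarith)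
      have h3 : 0 < (Real.log 2) ^ p * ((k : ℝ) + 1) ^ p := by positivity
      have h4 : (2 : ℝ) ^ (k + 1) * (1 / ((2 ^ (k + 1) + 1) * (Real.log (2 ^ (k + 1) + 3)) ^ p)) ≤
          1 / (Real.log (2 ^ (k + 1) + 3)) ^ p := by
        have h5 : 0 < (Real.log (2 ^ (k + 1) + 3)) ^ p := lt_of_lt_of_le h3 h2
        rw [mul_one_div, div_le_div_iff₀ (by positivity) h5]
        have h6 : (0 : ℝ) < 2 ^ (k + 1) := by positivity
        nlinarith
      refine h4.trans ?_
      rw [one_div_mul_one_div]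
      exact one_div_le_one_div_of_le h3 h2
  · intro n
    have := hlogpos n
    positivity
  · intro m n hm hmn
    have h1 : (m : ℝ) ≤ n := by exact_mod_cast hmn
    have h0 : (0 : ℝ) ≤ m := Nat.cast_nonneg m
    have := hlogpos m
    apply one_div_le_one_div_of_le (by positivity)
    apply mul_le_mul (by linarith) (log_rpow_mono (by linarith) (by linarith) (by linarith))
      (by positivity) (by positivity)

/-- convergence -/
theorem conv_sum (C p : ℝ) (hp : 1 < p) : Summable (fun i : ℕ =>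
    C * (1 / ((i : ℝ) * Real.log 2) * Real.exp (-(p * ll ((i : ℝ) * Real.log 2))))) := by
  apply Summable.mul_left
  have hl2 : 0 < Real.log 2 := Real.log_pos (by norm_num)
  have hl2' : 1 / 2 ≤ Real.log 2 := by
    have := Real.log_two_gt_d9
    linarith
  have h1 : Summable (fun n : ℕ => (4 * 2 ^ p) * (1 / (((n : ℝ) + 1) * (Real.log ((n : ℝ) + 3)) ^ p))) :=
    (cond_sum p hp).mul_left _
  refine Summable.of_norm_bounded_eventually_nat h1 ?_
  filter_upwards [eventually_ge_atTop 100] with i hi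
  have hi' : (100 : ℝ) ≤ i := by exact_mod_cast hi
  have h2 : (i : ℝ) / 2 ≤ i * Real.log 2 := by
    have := mul_le_mul_of_nonneg_left hl2' (show (0 : ℝ) ≤ i by linarith)
    linarith
  have h3 : Real.log ((i : ℝ) + 3) ≤ 2 * Real.log ((i : ℝ) * Real.log 2) := by
    have e : 2 * Real.log ((i : ℝ) * Real.log 2) = Real.log (((i : ℝ) * Real.log 2) ^ 2) := by
      rw [Real.log_pow]; norm_num
    rw [e]
    apply Real.log_le_log (by linarith)
    have h4 : ((i : ℝ) / 2) ^ 2 ≤ ((i : ℝ) * Real.log 2) ^ 2 := pow_le_pow_left₀ (by linarith) h2 2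
    nlinarith
  have h4 : 0 < Real.log ((i : ℝ) + 3) := Real.log_pos (by linarith)
  have h5 : 0 < Real.log ((i : ℝ) * Real.log 2) := by linarith
  have h6 : Real.exp (-(p * ll ((i : ℝ) * Real.log 2))) = 1 / (Real.log ((i : ℝ) * Real.log 2)) ^ p := by
    rw [Real.rpow_def_of_pos h5, one_div, ← Real.exp_neg]
    unfold ll
    congr 1
    ring
  rw [h6, Real.norm_of_nonneg (by positivity)]
  have h7 : (Real.log ((i : ℝ) + 3)) ^ p ≤ 2 ^ p * (Real.log ((i : ℝ) * Real.log 2)) ^ p := by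
    rw [← Real.mul_rpow (by norm_num) h5.le]
    exact Real.rpow_le_rpow h4.le h3 (by linarith)
  have h8 : 0 < (Real.log ((i : ℝ) * Real.log 2)) ^ p := by positivity
  have h9 : 0 < (Real.log ((i : ℝ) + 3)) ^ p := by positivity
  rw [one_div_mul_one_div, mul_one_div, div_le_div_iff₀ (by positivity) (by positivity), one_mul]
  calc ((i : ℝ) + 1) * (Real.log ((i : ℝ) + 3)) ^ p
      ≤ (4 * ((i : ℝ) * Real.log 2)) * (2 ^ p * (Real.log ((i : ℝ) * Real.log 2)) ^ p) := by
        apply mul_le_mul (by linarith) h7 h9.le (by positivity)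
    _ = _ := by ring

end Pool.Agent.R528.RM
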