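import Mathlib
import Pool.Agent.H50.G.S.R528.RM.Basic
set_option autoImplicit false
set_option linter.unusedSectionVars false

/-! # Iteration over blocks: infinitely many long runs -/

open MeasureTheory Filter Set
open scoped ENNReal Topology

namespace Pool.Agent.R528.RM

variable {Ω : Type} {m0 : MeasurableSpace Ω} {μ : Measure Ω} [IsProbabilityMeasure μ]
  {ℱ : Filtration ℕ m0} {A : ℕ → Set Ω}

/-- remove the first `m` blocks of length `2 G` after `s` -/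
def BB (A V : ℕ → Set Ω) (B : Set Ω) (s G : ℕ) : ℕ → Set Ω
  | 0 => B
  | m + 1 => BB A V B s G m \ (DD A (s + 2 * G * m) G ∪ WW V (s + 2 * G * m) G)

lemma BB_meas (hA : ∀ n, MeasurableSet[ℱ n] (A n)) {V : ℕ → Set Ω}
    (hV : ∀ n, MeasurableSet[ℱ n] (V n)) {B : Set Ω} {s : ℕ} (hB : MeasurableSet[ℱ s] B) (G m : ℕ) :
    MeasurableSet[ℱ (s + 2 * G * m)] (BB A V B s G m) := by
  induction m with
  | zero => exact hB
  | succ m ih =>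
    have e : s + 2 * G * (m + 1) = s + 2 * G * m + 2 * G := by ring
    rw [e]
    exact (ℱ.mono (Nat.le_add_right _ _) _ ih).diff ((DD_meas hA _ G).union (WW_meas hV _ G))

theorem BB_le (hA : ∀ n, MeasurableSet[ℱ n] (A n)) {V : ℕ → Set Ω}
    (hV : ∀ n, MeasurableSet[ℱ n] (V n)) {B : Set Ω} {s : ℕ} (hB : MeasurableSet[ℱ s] B)
    {l u : ℝ} (hl0 : 0 ≤ l) (hu0 : 0 ≤ u) (hu1 : u ≤ 1) (G : ℕ) (M : ℕ)
    (hlu : ∀ n, s ≤ n → n < s + 2 * G * M → ∀ ω, ω ∉ V n → l ≤ dens μ ℱ A n ω ∧ dens μ ℱ A n ω ≤ u)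
    (hc : G * (l * (1 - u) ^ G) ≤ 1) :
    ∀ m ≤ M, μ.real (BB A V B s G m) ≤ Real.exp (-(m * (G * (l * (1 - u) ^ G)) / 2)) * μ.real B := by
  intro m
  induction m with
  | zero => intro _; simp [BB]
  | succ m ih =>
    intro hm
    have ih := ih (by omega)
    have h1 := block (μ := μ) hA hV (BB_meas hA hV hB G m) hl0 hu0 hu1 G (by
      intro n hn1 hn2
      refine hlu n (by omega) ?_
      have : 2 * G * m + 2 * G ≤ 2 * G * M := by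
        calc 2 * G * m + 2 * G = 2 * G * (m + 1) := by ring
          _ ≤ 2 * G * M := Nat.mul_le_mul_left _ hm
      omega) hc
    set c : ℝ := G * (l * (1 - u) ^ G) with hcd
    have hc0 : 0 ≤ c := by
      have : 0 ≤ (1 - u) ^ G := pow_nonneg (by linarith) _
      positivity
    refine h1.trans ?_
    have h2 : 1 - c / 2 ≤ Real.exp (-(c / 2)) := by
      have := Real.add_one_le_exp (-(c / 2))
      linarith
    have h3 : 0 ≤ μ.real (BB A V B s G m) := measureReal_nonneg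
    calc (1 - c / 2) * μ.real (BB A V B s G m)
        ≤ Real.exp (-(c / 2)) * (Real.exp (-(m * c / 2)) * μ.real B) :=
          mul_le_mul h2 ih h3 (Real.exp_pos _).le
      _ = Real.exp (-(((m + 1 : ℕ) : ℝ) * c / 2)) * μ.real B := by
          rw [← mul_assoc, ← Real.exp_add]
          congr 2
          push_cast
          ring

/-- the event that nothing happened in the dyadic blocks `i₀, ..., i₀ + n - 1` -/
def CC (A V : ℕ → Set Ω) (G M : ℕ → ℕ) (i₀ : ℕ) : ℕ → Set Ω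
  | 0 => univ
  | n + 1 => BB A V (CC A V G M i₀ n) (2 ^ (i₀ + n)) (G (i₀ + n)) (M (i₀ + n))

lemma CC_meas (hA : ∀ n, MeasurableSet[ℱ n] (A n)) {V : ℕ → Set Ω}
    (hV : ∀ n, MeasurableSet[ℱ n] (V n)) (G M : ℕ → ℕ) (i₀ : ℕ)
    (hGM : ∀ i, i₀ ≤ i → 2 * G i * M i ≤ 2 ^ i) (n : ℕ) :
    MeasurableSet[ℱ (2 ^ (i₀ + n))] (CC A V G M i₀ n) := by
  induction n with
  | zero => exact MeasurableSet.univ
  | succ n ih =>
    have h1 := BB_meas hA hV ih (G (i₀ + n)) (M (i₀ + n))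
    refine ℱ.mono ?_ _ h1
    have := hGM (i₀ + n) (by omega)
    have e : 2 ^ (i₀ + (n + 1)) = 2 ^ (i₀ + n) + 2 ^ (i₀ + n) := by
      rw [← add_assoc, pow_succ]; ring
    omega

theorem CC_le (hA : ∀ n, MeasurableSet[ℱ n] (A n)) {V : ℕ → Set Ω}
    (hV : ∀ n, MeasurableSet[ℱ n] (V n)) (G M : ℕ → ℕ) (l u : ℕ → ℝ) (i₀ : ℕ)
    (hGM : ∀ i, i₀ ≤ i → 2 * G i * M i ≤ 2 ^ i)
    (hl0 : ∀ i, i₀ ≤ i → 0 ≤ l i) (hu0 : ∀ i, i₀ ≤ i → 0 ≤ u i) (hu1 : ∀ i, i₀ ≤ i → u i ≤ 1)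
    (hlu : ∀ i, i₀ ≤ i → ∀ n, 2 ^ i ≤ n → n < 2 ^ (i + 1) → ∀ ω, ω ∉ V n →
      l i ≤ dens μ ℱ A n ω ∧ dens μ ℱ A n ω ≤ u i)
    (hc : ∀ i, i₀ ≤ i → G i * (l i * (1 - u i) ^ G i) ≤ 1) (n : ℕ) :
    μ.real (CC A V G M i₀ n) ≤
      Real.exp (-∑ i ∈ Finset.range n, M (i₀ + i) * (G (i₀ + i) * (l (i₀ + i) * (1 - u (i₀ + i)) ^ G (i₀ + i))) / 2) := by
  induction n with
  | zero => simp [CC]
  | succ n ih =>
    have h0 := hGM (i₀ + n) (by omega)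
    have h1 := BB_le (μ := μ) hA hV (CC_meas hA hV G M i₀ hGM n) (hl0 (i₀ + n) (by omega))
      (hu0 (i₀ + n) (by omega)) (hu1 (i₀ + n) (by omega)) (G (i₀ + n)) (M (i₀ + n)) (by
        intro k hk1 hk2
        refine hlu (i₀ + n) (by omega) k hk1 ?_
        have e : 2 ^ (i₀ + n + 1) = 2 ^ (i₀ + n) + 2 ^ (i₀ + n) := by
          rw [pow_succ]; ring
        omega) (hc (i₀ + n) (by omega)) (M (i₀ + n)) le_rfl
    rw [Finset.sum_range_succ, neg_add, Real.exp_add, mul_comm]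
    exact h1.trans (mul_le_mul_of_nonneg_left ih (Real.exp_pos _).le)

lemma not_mem_BB {V : ℕ → Set Ω} {B : Set Ω} {s G M : ℕ} {ω : Ω} (hB : ω ∈ B) (h : ω ∉ BB A V B s G M) :
    ∃ m < M, ω ∈ DD A (s + 2 * G * m) G ∪ WW V (s + 2 * G * m) G := by
  induction M with
  | zero => exact absurd hB h
  | succ M ih =>
    by_cases h1 : ω ∈ BB A V B s G M
    · refine ⟨M, Nat.lt_succ_self M, ?_⟩
      by_contra h2
      exact h ⟨h1, h2⟩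
    · obtain ⟨m, hm, h2⟩ := ih h1
      exact ⟨m, hm.trans (Nat.lt_succ_self M), h2⟩

lemma not_mem_CC {V : ℕ → Set Ω} {G M : ℕ → ℕ} {i₀ n : ℕ} {ω : Ω} (h : ω ∉ CC A V G M i₀ n) :
    ∃ i, i₀ ≤ i ∧ ∃ m < M i, ω ∈ DD A (2 ^ i + 2 * G i * m) (G i) ∪ WW V (2 ^ i + 2 * G i * m) (G i) := by
  induction n with
  | zero => exact absurd (mem_univ ω) h
  | succ n ih =>
    by_cases h1 : ω ∈ CC A V G M i₀ n
    · obtain ⟨m, hm, h2⟩ := not_mem_BB h1 h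
      exact ⟨i₀ + n, by omega, m, hm, h2⟩
    · exact ih h1

/-- infinitely many long runs, almost surely on the event that there is no violation -/
theorem io (hA : ∀ n, MeasurableSet[ℱ n] (A n)) {V : ℕ → Set Ω}
    (hV : ∀ n, MeasurableSet[ℱ n] (V n)) (G M : ℕ → ℕ) (l u : ℕ → ℝ) (i₀ : ℕ)
    (hGM : ∀ i, i₀ ≤ i → 2 * G i * M i ≤ 2 ^ i)
    (hl0 : ∀ i, i₀ ≤ i → 0 ≤ l i) (hu0 : ∀ i, i₀ ≤ i → 0 ≤ u i) (hu1 : ∀ i, i₀ ≤ i → u i ≤ 1)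
    (hlu : ∀ i, i₀ ≤ i → ∀ n, 2 ^ i ≤ n → n < 2 ^ (i + 1) → ∀ ω, ω ∉ V n →
      l i ≤ dens μ ℱ A n ω ∧ dens μ ℱ A n ω ≤ u i)
    (hc : ∀ i, i₀ ≤ i → G i * (l i * (1 - u i) ^ G i) ≤ 1)
    (hsum : ∀ i₁, i₀ ≤ i₁ → Tendsto (fun n => ∑ i ∈ Finset.range n,
      M (i₁ + i) * (G (i₁ + i) * (l (i₁ + i) * (1 - u (i₁ + i)) ^ G (i₁ + i))) / 2) atTop atTop) :
    ∀ᵐ ω ∂μ, (∀ n, 2 ^ i₀ ≤ n → ω ∉ V n) → ∀ i₁, i₀ ≤ i₁ → ∃ i, i₁ ≤ i ∧
      ∃ k, 2 ^ i < k ∧ k ≤ 2 ^ (i + 1) ∧ ω ∈ A k ∧ ∀ j, 1 ≤ j → j ≤ G i → ω ∉ A (k + j) := by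
  have h1 : ∀ i₁, i₀ ≤ i₁ → μ (⋂ n, CC A V G M i₁ n) = 0 := by
    intro i₁ hi₁
    have h2 : ∀ n, μ.real (⋂ n, CC A V G M i₁ n) ≤
        Real.exp (-∑ i ∈ Finset.range n, M (i₁ + i) * (G (i₁ + i) * (l (i₁ + i) * (1 - u (i₁ + i)) ^ G (i₁ + i))) / 2) := by
      intro n
      refine le_trans (measureReal_mono (iInter_subset _ n)) ?_
      exact CC_le (μ := μ) hA hV G M l u i₁ (fun i hi => hGM i (hi₁.trans hi)) (fun i hi => hl0 i (hi₁.trans hi))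
        (fun i hi => hu0 i (hi₁.trans hi)) (fun i hi => hu1 i (hi₁.trans hi)) (fun i hi => hlu i (hi₁.trans hi))
        (fun i hi => hc i (hi₁.trans hi)) n
    have h3 : Tendsto (fun n => Real.exp (-∑ i ∈ Finset.range n,
        M (i₁ + i) * (G (i₁ + i) * (l (i₁ + i) * (1 - u (i₁ + i)) ^ G (i₁ + i))) / 2)) atTop (𝓝 0) :=
      Real.tendsto_exp_neg_atTop_nhds_zero.comp (hsum i₁ hi₁)
    have h4 : μ.real (⋂ n, CC A V G M i₁ n) ≤ 0 := ge_of_tendsto' h3 h2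
    have h5 : μ.real (⋂ n, CC A V G M i₁ n) = 0 := le_antisymm h4 measureReal_nonneg
    rw [measureReal_eq_zero_iff] at h5
    exact h5
  have h2 : ∀ᵐ ω ∂μ, ∀ i₁, i₀ ≤ i₁ → ω ∉ ⋂ n, CC A V G M i₁ n := by
    rw [ae_all_iff]
    intro i₁
    by_cases hi₁ : i₀ ≤ i₁
    · have := measure_eq_zero_iff_ae_notMem.1 (h1 i₁ hi₁)
      filter_upwards [this] with ω hω _
      exact hω
    · exact Eventually.of_forall fun ω h => absurd h hi₁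
  filter_upwards [h2] with ω hω hnV i₁ hi₁
  have h3 := hω i₁ hi₁
  rw [mem_iInter, not_forall] at h3
  obtain ⟨n, hn⟩ := h3
  obtain ⟨i, hi, m, hm, h4⟩ := not_mem_CC hn
  refine ⟨i, hi, ?_⟩
  have hGMi := hGM i (hi₁.trans hi)
  have h5 : 2 * G i * m + 2 * G i ≤ 2 ^ i := by
    calc 2 * G i * m + 2 * G i = 2 * G i * (m + 1) := by ring
      _ ≤ 2 * G i * M i := Nat.mul_le_mul_left _ hm
      _ ≤ _ := hGMi
  have e : 2 ^ (i + 1) = 2 ^ i + 2 ^ i := by rw [pow_succ]; ring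
  rcases h4 with h4 | h4
  · obtain ⟨a, ha, h6, h7⟩ := h4
    refine ⟨2 ^ i + 2 * G i * m + a + 1, by omega, by omega, h6, fun j hj1 hj2 => ?_⟩
    have h8 := h7 (j - 1) (by omega)
    have h9 : 2 ^ i + 2 * G i * m + a + 1 + (j - 1) + 1 = 2 ^ i + 2 * G i * m + a + 1 + j := by omega
    rw [h9] at h8
    exact h8
  · obtain ⟨n', hn1, hn2, hn3⟩ := h4
    have h10 : 2 ^ i₀ ≤ 2 ^ i := Nat.pow_le_pow_right (by norm_num) (hi₁.trans hi)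
    exact absurd hn3 (hnV n' (by omega))

lemma mem_FF {V : ℕ → Set Ω} {k : ℕ} {ω : Ω} (h0 : ω ∈ A (k + 1)) (hV : ∀ n, k ≤ n → ω ∉ V n) (J : ℕ)
    (h : ∀ j, 1 ≤ j → j ≤ J → ω ∉ A (k + 1 + j)) : ω ∈ FF A V k J := by
  induction J with
  | zero => exact ⟨h0, hV k le_rfl⟩
  | succ J ih =>
    refine ⟨⟨ih (fun j h1 h2 => h j h1 (by omega)), hV _ (by omega)⟩, ?_⟩
    have := h (J + 1) (by omega) le_rfl
    rwa [← add_assoc] at this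

/-- only finitely many long runs, almost surely on the event that there is no violation -/
theorem fin (hA : ∀ n, MeasurableSet[ℱ n] (A n)) {V : ℕ → Set Ω}
    (hV : ∀ n, MeasurableSet[ℱ n] (V n)) (G : ℕ → ℕ) (l u : ℕ → ℝ) (i₀ : ℕ)
    (hG : ∀ i, i₀ ≤ i → G i ≤ 2 ^ i)
    (hl1 : ∀ i, i₀ ≤ i → l i ≤ 1) (hu0 : ∀ i, i₀ ≤ i → 0 ≤ u i)
    (hlu : ∀ i, i₀ ≤ i → ∀ n, 2 ^ i ≤ n + 1 → n < 2 ^ (i + 2) → ∀ ω, ω ∉ V n →
      l i ≤ dens μ ℱ A n ω ∧ dens μ ℱ A n ω ≤ u i)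
    (hsum : Summable (fun i => 2 ^ (i₀ + i) * (u (i₀ + i) * (1 - l (i₀ + i)) ^ G (i₀ + i)))) :
    ∀ᵐ ω ∂μ, (∀ n, 2 ^ i₀ ≤ n + 1 → ω ∉ V n) → ∃ i₁, ∀ i, i₁ ≤ i → ∀ k, 2 ^ i ≤ k → k < 2 ^ (i + 1) →
      ω ∈ A k → ∃ j, 1 ≤ j ∧ j ≤ G i ∧ ω ∈ A (k + j) := by
  classical
  set E : ℕ → Set Ω := fun i => ⋃ a ∈ Finset.range (2 ^ (i₀ + i)), FF A V (2 ^ (i₀ + i) - 1 + a) (G (i₀ + i)) with hE
  have h1 : ∀ i, μ.real (E i) ≤ 2 ^ (i₀ + i) * (u (i₀ + i) * (1 - l (i₀ + i)) ^ G (i₀ + i)) := by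
    intro i
    refine le_trans (measureReal_biUnion_finset_le _ _) ?_
    have h2 : ∀ a ∈ Finset.range (2 ^ (i₀ + i)), μ.real (FF A V (2 ^ (i₀ + i) - 1 + a) (G (i₀ + i))) ≤
        u (i₀ + i) * (1 - l (i₀ + i)) ^ G (i₀ + i) := by
      intro a ha
      have ha := Finset.mem_range.1 ha
      have hp : 1 ≤ 2 ^ (i₀ + i) := Nat.one_le_two_pow
      refine FF_le (μ := μ) hA hV (hl1 _ (by omega)) (hu0 _ (by omega)) _ (G (i₀ + i)) ?_ _ le_rfl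
      intro n hn1 hn2
      refine hlu (i₀ + i) (by omega) n (by omega) ?_
      have h3 := hG (i₀ + i) (by omega)
      have e : 2 ^ (i₀ + i + 2) = 4 * 2 ^ (i₀ + i) := by rw [pow_add]; ring
      omega
    refine (Finset.sum_le_sum h2).trans ?_
    rw [Finset.sum_const, Finset.card_range, nsmul_eq_mul]
    push_cast
    exact le_rfl
  have h2 : ∑' i, μ (E i) ≠ ∞ := by
    have h3 : Summable (fun i => μ.real (E i)) :=
      Summable.of_nonneg_of_le (fun _ => measureReal_nonneg) h1 hsum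
    have h4 : ∑' i, μ (E i) = ENNReal.ofReal (∑' i, μ.real (E i)) := by
      rw [ENNReal.ofReal_tsum_of_nonneg (fun _ => measureReal_nonneg) h3]
      congr 1
      funext i
      exact (ofReal_measureReal (measure_ne_top _ _)).symm
    rw [h4]
    exact ENNReal.ofReal_ne_top
  filter_upwards [ae_eventually_notMem h2] with ω hω hnV
  obtain ⟨i₁, hi₁⟩ := eventually_atTop.1 hω
  refine ⟨i₀ + i₁, fun i hi k hk1 hk2 hkA => ?_⟩
  by_contra hcon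
  push Not at hcon
  obtain ⟨i', rfl⟩ : ∃ i', i = i₀ + i' := ⟨i - i₀, by omega⟩
  apply hi₁ i' (by omega)
  have hp : 1 ≤ 2 ^ (i₀ + i') := Nat.one_le_two_pow
  have hp0 : 2 ^ i₀ ≤ 2 ^ (i₀ + i') := Nat.pow_le_pow_right (by norm_num) (by omega)
  have e : 2 ^ (i₀ + i' + 1) = 2 ^ (i₀ + i') + 2 ^ (i₀ + i') := by rw [pow_succ]; ring
  rw [hE]
  simp only [mem_iUnion, Finset.mem_range, exists_prop]
  refine ⟨k - 2 ^ (i₀ + i'), by omega, ?_⟩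
  have e2 : 2 ^ (i₀ + i') - 1 + (k - 2 ^ (i₀ + i')) = k - 1 := by omega
  have e3 : k - 1 + 1 = k := by omega
  rw [e2]
  refine mem_FF (by rwa [e3]) (fun n hn => hnV n (by omega)) _ ?_
  intro j hj1 hj2
  rw [e3]
  exact hcon j hj1 hj2

end Pool.Agent.R528.RM
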