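import Mathlib
import Pool.Agent.H50.G.S.R528.RM.Basic
import Pool.Agent.H50.G.S.R528.RM.Iter
import Pool.Agent.H50.G.S.R528.RM.Ana
set_option autoImplicit false
set_option linter.unusedSectionVars false

/-! # The second order law for the gaps of adapted random sets -/

open MeasureTheory Filter Set
open scoped ENNReal Topology

namespace Pool.Agent.R528.RM

variable {Ω : Type} {m0 : MeasurableSpace Ω} {μ : Measure Ω} [IsProbabilityMeasure μ]
  {ℱ : Filtration ℕ m0} {A : ℕ → Set Ω}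

/-- the event that the conditional density at `n` is not within `δ log log log n` of `log n` -/
def VV (μ : Measure Ω) (ℱ : Filtration ℕ m0) (A : ℕ → Set Ω) (δ : ℝ) (n : ℕ) : Set Ω :=
  {ω | ¬ |(dens μ ℱ A n ω)⁻¹ - Real.log n| ≤ δ * ll (Real.log n)}

lemma meas_aux (m : MeasurableSpace Ω) (f : Ω → ℝ) (hf : Measurable[m] f) (a b : ℝ) :
    MeasurableSet[m] {ω | ¬ |(f ω)⁻¹ - a| ≤ b} := by
  have h2 : MeasurableSet {x : ℝ | ¬ |x⁻¹ - a| ≤ b} := by
    have : Measurable (fun x : ℝ => |x⁻¹ - a|) := by fun_prop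
    exact (this measurableSet_Iic).compl
  exact hf h2

lemma VV_meas (δ : ℝ) (n : ℕ) : MeasurableSet[ℱ n] (VV μ ℱ A δ n) :=
  meas_aux (ℱ n) _ (dens_meas n).measurable _ _

lemma bounds {δ : ℝ} (hδ : 0 ≤ δ) {L : ℝ} (hL : 1000 ≤ L) (hD : 0 < L - 1 - δ * ll (L + 2)) {n : ℕ}
    (h1 : L - 1 ≤ Real.log n) (h2 : Real.log n ≤ L + 2) {ω : Ω} (hω : ω ∉ VV μ ℱ A δ n) :
    1 / (L + 2 + δ * ll (L + 2)) ≤ dens μ ℱ A n ω ∧ dens μ ℱ A n ω ≤ 1 / (L - 1 - δ * ll (L + 2)) := by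
  simp only [VV, mem_ofPred_eq, not_not] at hω
  have he : Real.exp 1 ≤ Real.log n := by
    have := Real.exp_one_lt_d9
    linarith
  have h3 : ll (Real.log n) ≤ ll (L + 2) := ll_mono he h2
  have h4 : δ * ll (Real.log n) ≤ δ * ll (L + 2) := mul_le_mul_of_nonneg_left h3 hδ
  have h5 := abs_le.1 hω
  obtain ⟨x, hx⟩ : ∃ x, x = dens μ ℱ A n ω := ⟨_, rfl⟩
  rw [← hx] at h5 ⊢
  have h6 : L - 1 - δ * ll (L + 2) ≤ x⁻¹ := by linarith
  have h7 : x⁻¹ ≤ L + 2 + δ * ll (L + 2) := by linarith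
  have h8 : 0 < x⁻¹ := by linarith
  have h9 : 0 < x := inv_pos.1 h8
  constructor
  · rw [one_div, inv_le_comm₀ (by linarith) h9]
    exact h7
  · rw [one_div, le_inv_comm₀ h9 hD]
    exact h6

lemma log_two_facts : 0 < Real.log 2 ∧ Real.log 2 ≤ 1 ∧ 1 / 2 ≤ Real.log 2 := by
  have h1 := Real.log_two_gt_d9
  have h2 := Real.log_two_lt_d9
  exact ⟨by linarith, by linarith, by linarith⟩

lemma log_dyadic {i n : ℕ} (h1 : 2 ^ i ≤ n) (h2 : n ≤ 2 ^ (i + 1)) :
    (i : ℝ) * Real.log 2 ≤ Real.log n ∧ Real.log n ≤ (i : ℝ) * Real.log 2 + 1 := by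
  obtain ⟨hl0, hl1, _⟩ := log_two_facts
  have hp : (0 : ℝ) < 2 ^ i := by positivity
  have h1' : (2 : ℝ) ^ i ≤ n := by exact_mod_cast h1
  have h2' : (n : ℝ) ≤ 2 ^ (i + 1) := by exact_mod_cast h2
  constructor
  · rw [← Real.log_pow]
    exact Real.log_le_log hp h1'
  · have h3 : Real.log n ≤ Real.log (2 ^ (i + 1)) := Real.log_le_log (by linarith) h2'
    rw [Real.log_pow] at h3
    push_cast at h3
    linarith

lemma log_dyadic' {i n : ℕ} (hi : 2 ≤ i) (h1 : 2 ^ i ≤ n + 1) (h2 : n < 2 ^ (i + 2)) :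
    (i : ℝ) * Real.log 2 - 1 ≤ Real.log n ∧ Real.log n ≤ (i : ℝ) * Real.log 2 + 2 := by
  obtain ⟨hl0, hl1, _⟩ := log_two_facts
  have hp : (4 : ℝ) ≤ 2 ^ i := by
    have : (2 : ℝ) ^ 2 ≤ 2 ^ i := pow_le_pow_right₀ (by norm_num) hi
    linarith
  have h1' : (2 : ℝ) ^ i ≤ n + 1 := by exact_mod_cast h1
  have h2' : (n : ℝ) ≤ 2 ^ (i + 2) := by exact_mod_cast h2.le
  constructor
  · have h3 : Real.log (2 ^ i / 2) ≤ Real.log n := Real.log_le_log (by positivity) (by linarith)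
    rw [Real.log_div (by positivity) (by norm_num), Real.log_pow] at h3
    linarith
  · have h3 : Real.log n ≤ Real.log (2 ^ (i + 2)) := Real.log_le_log (by linarith) h2'
    rw [Real.log_pow] at h3
    push_cast at h3
    linarith

lemma tendsto_iL : Tendsto (fun i : ℕ => (i : ℝ) * Real.log 2) atTop atTop :=
  tendsto_natCast_atTop_atTop.atTop_mul_const log_two_facts.1

/-- long runs occur infinitely often -/
theorem law_io (hA : ∀ n, MeasurableSet[ℱ n] (A n)) {θ δ : ℝ} (hθ : 0 ≤ θ) (hδ : 0 < δ)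
    (hδθ : θ + δ ≤ 1) :
    ∀ᵐ ω ∂μ, (∃ n₀ : ℕ, ∀ n, n₀ ≤ n → ω ∉ VV μ ℱ A δ n) → ∀ K : ℕ, ∃ k, K ≤ k ∧ ω ∈ A k ∧
      ∀ j : ℕ, 1 ≤ j → (j : ℝ) ≤ (Real.log k) ^ 2 + θ * Real.log k * ll (Real.log k) → ω ∉ A (k + j) := by
  obtain ⟨hl0, hl1, hl2⟩ := log_two_facts
  -- the parameters
  set L : ℕ → ℝ := fun i => (i : ℝ) * Real.log 2 with hL
  set G : ℕ → ℕ := fun i => ⌈(L i + 1) ^ 2 + θ * (L i + 1) * ll (L i + 1)⌉₊ with hG
  set M : ℕ → ℕ := fun i => 2 ^ i / (2 * G i) with hM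
  set l : ℕ → ℝ := fun i => 1 / (L i + 2 + δ * ll (L i + 2)) with hl
  set u : ℕ → ℝ := fun i => 1 / (L i - 1 - δ * ll (L i + 2)) with hu
  have hev : ∀ᶠ i : ℕ in atTop, 1000 ≤ L i ∧ 1 ≤ ll (L i) ∧ 1 ≤ ll (L i + 1) ∧ 4 * G i ≤ 2 ^ i ∧ 1 ≤ G i ∧
      0 < L i - 1 - δ * ll (L i + 2) ∧ u i ≤ 1 / 2 ∧
      Real.exp (-(L i + (θ + δ) * ll (L i) + 40)) ≤ (1 - u i) ^ G i ∧
      (G i : ℝ) * (l i * (1 - u i) ^ G i) ≤ 1 ∧ 1 / (2 * L i) ≤ l i := by
    have h1 := tendsto_iL.eventually ev_basic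
    have h2 := tendsto_iL.eventually (ev_run θ δ hθ (by linarith) hδ (by linarith))
    have h3 : ∀ᶠ x : ℝ in atTop, 8 * x ^ 2 ≤ Real.exp x := by
      have := (Real.isLittleO_pow_exp_atTop (n := 2)).def (show (0 : ℝ) < 1 / 8 by norm_num)
      filter_upwards [this] with x hx
      rw [Real.norm_of_nonneg (by positivity), Real.norm_of_nonneg (Real.exp_pos _).le] at hx
      linarith
    filter_upwards [h1, h2, tendsto_iL.eventually h3, eventually_ge_atTop 1] with i h1 h2 h3 hi1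
    obtain ⟨hb1, hb2, hb3, hb4, hb5, hb6, hb7⟩ := h1
    have hbL : 1000 ≤ L i := hb1
    have hb2' : 1 ≤ ll (L i) := hb2
    have hb6' : ll (L i) ≤ ll (L i + 1) := hb6
    have hx0 : 0 ≤ θ * (L i + 1) * ll (L i + 1) := by
      have h4 : 0 ≤ L i + 1 := by linarith
      have h5 : 0 ≤ ll (L i + 1) := by linarith
      positivity
    have hGle : (G i : ℝ) ≤ (L i + 1) ^ 2 + θ * (L i + 1) * ll (L i + 1) + 1 := by
      have := (Nat.ceil_lt_add_one (show 0 ≤ (L i + 1) ^ 2 + θ * (L i + 1) * ll (L i + 1) by positivity)).le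
      exact this
    have hGge : (L i + 1) ^ 2 + θ * (L i + 1) * ll (L i + 1) ≤ G i := Nat.le_ceil _
    have hGge' : (L i) ^ 2 ≤ G i := by nlinarith
    obtain ⟨r1, r2, r3, r4, r5, r6⟩ := h2 (G i) hGle hGge'
    refine ⟨hb1, hb2, hb2'.trans hb6', ?_, ?_, r1, r2, r3, r4, r6⟩
    · have h4 : (4 * G i : ℝ) ≤ 2 ^ i := by
        have e : (2 : ℝ) ^ i = Real.exp (L i) := by
          rw [hL]
          simp only
          rw [mul_comm, Real.exp_mul, Real.exp_log (by norm_num), Real.rpow_natCast]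
        rw [e]
        have h3' : 8 * (L i) ^ 2 ≤ Real.exp (L i) := h3
        have r5' : (G i : ℝ) ≤ 2 * (L i) ^ 2 := r5
        linarith
      exact_mod_cast h4
    · have h4 : (1 : ℝ) ≤ G i := by nlinarith
      exact_mod_cast h4
  obtain ⟨i₀, hi₀⟩ := eventually_atTop.1 hev
  -- apply the abstract theorem for every starting index
  have key : ∀ i', max i₀ 3 ≤ i' → ∀ᵐ ω ∂μ, (∀ n, 2 ^ i' ≤ n → ω ∉ VV μ ℱ A δ n) → ∀ i₁, i' ≤ i₁ → ∃ i, i₁ ≤ i ∧
      ∃ k, 2 ^ i < k ∧ k ≤ 2 ^ (i + 1) ∧ ω ∈ A k ∧ ∀ j, 1 ≤ j → j ≤ G i → ω ∉ A (k + j) := by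
    intro i' hi'
    have hi'' : i₀ ≤ i' := (le_max_left _ _).trans hi'
    have hi3 : 3 ≤ i' := (le_max_right _ _).trans hi'
    refine io (μ := μ) hA (fun n => VV_meas δ n) G M l u i' ?_ ?_ ?_ ?_ ?_ ?_ ?_
    · intro i _
      exact Nat.mul_div_le _ _
    · intro i hi
      obtain ⟨a1, a2, a3, a4, a5, a6, a7, a8, a9, a10⟩ := hi₀ i (hi''.trans hi)
      exact le_trans (by positivity) a10
    · intro i hi
      obtain ⟨a1, a2, a3, a4, a5, a6, a7, a8, a9, a10⟩ := hi₀ i (hi''.trans hi)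
      exact (one_div_pos.2 a6).le
    · intro i hi
      obtain ⟨a1, a2, a3, a4, a5, a6, a7, a8, a9, a10⟩ := hi₀ i (hi''.trans hi)
      linarith
    · intro i hi n hn1 hn2 ω hω
      obtain ⟨a1, a2, a3, a4, a5, a6, a7, a8, a9, a10⟩ := hi₀ i (hi''.trans hi)
      obtain ⟨b1, b2⟩ := log_dyadic hn1 hn2.le
      exact bounds hδ.le a1 a6 (by linarith) (by linarith) hω
    · intro i hi
      obtain ⟨a1, a2, a3, a4, a5, a6, a7, a8, a9, a10⟩ := hi₀ i (hi''.trans hi)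
      exact a9
    · intro i₁ hi₁
      refine div_sum (Real.exp (-40) / 32) (by positivity) i₁ (by omega)
        (fun i => M i * (G i * (l i * (1 - u i) ^ G i)) / 2) ?_ ?_
      · intro i hi
        obtain ⟨a1, a2, a3, a4, a5, a6, a7, a8, a9, a10⟩ := hi₀ i (hi''.trans (hi₁.trans hi))
        have hL0 : 0 < L i := by linarith
        have hMG : (2 : ℝ) ^ i / 4 ≤ (M i : ℝ) * G i := by
          have h1 : 2 ^ i < 2 * G i * (M i + 1) := by
            have := Nat.lt_mul_div_succ (2 ^ i) (show 0 < 2 * G i by omega)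
            exact this
          have h2 : (2 : ℝ) ^ i < 2 * G i * (M i + 1) := by exact_mod_cast h1
          have h3 : (4 : ℝ) * G i ≤ 2 ^ i := by exact_mod_cast a4
          nlinarith
        have e : (2 : ℝ) ^ i = Real.exp (L i) := by
          rw [hL]
          simp only
          rw [mul_comm, Real.exp_mul, Real.exp_log (by norm_num), Real.rpow_natCast]
        have h4 : Real.exp (-(L i + (θ + δ) * ll (L i) + 40)) ≥ Real.exp (-(L i)) * (Real.exp (-40) / Real.log (L i)) := by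
          have h5 : Real.exp (ll (L i)) = Real.log (L i) := Real.exp_log (Real.log_pos (by linarith))
          have h6 : Real.exp (-40) / Real.log (L i) = Real.exp (-40 - ll (L i)) := by
            rw [Real.exp_sub, h5]
          rw [h6, ← Real.exp_add]
          apply Real.exp_le_exp.2
          have : (θ + δ) * ll (L i) ≤ 1 * ll (L i) := mul_le_mul_of_nonneg_right hδθ (by linarith)
          linarith
        have h5 : (1 / (2 * L i)) * (Real.exp (-(L i)) * (Real.exp (-40) / Real.log (L i))) ≤ l i * (1 - u i) ^ G i :=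
          mul_le_mul a10 (h4.le.trans a8) (by
            have : 0 < Real.log (L i) := Real.log_pos (by linarith)
            positivity) ((by positivity : (0 : ℝ) ≤ 1 / (2 * L i)).trans a10)
        have hlogL : 0 < Real.log (L i) := Real.log_pos (by linarith)
        calc Real.exp (-40) / 32 / ((i : ℝ) * Real.log 2 * Real.log ((i : ℝ) * Real.log 2))
            ≤ (2 : ℝ) ^ i / 4 * ((1 / (2 * L i)) * (Real.exp (-(L i)) * (Real.exp (-40) / Real.log (L i)))) / 2 := by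
              have e2 : (i : ℝ) * Real.log 2 = L i := rfl
              rw [e2, e]
              have e3 : Real.exp (L i) / 4 * ((1 / (2 * L i)) * (Real.exp (-(L i)) * (Real.exp (-40) / Real.log (L i)))) / 2
                  = (Real.exp (L i) * Real.exp (-(L i))) * (Real.exp (-40) / 16 / (L i * Real.log (L i))) := by
                field_simp
                ring
              rw [e3, ← Real.exp_add, add_neg_cancel, Real.exp_zero, one_mul]
              apply div_le_div_of_nonneg_right _ (by positivity)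
              have := Real.exp_pos (-40)
              linarith
          _ ≤ ((M i : ℝ) * G i) * (l i * (1 - u i) ^ G i) / 2 := by
              apply div_le_div_of_nonneg_right _ (by norm_num)
              exact mul_le_mul hMG h5 (by positivity) (by positivity)
          _ = M i * (G i * (l i * (1 - u i) ^ G i)) / 2 := by ring
      · intro i hi
        obtain ⟨a1, a2, a3, a4, a5, a6, a7, a8, a9, a10⟩ := hi₀ i (hi''.trans (hi₁.trans hi))
        have hlogL : 0 < Real.log (L i) := Real.log_pos (by linarith)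
        have : 1 ≤ Real.log (L i) := by
          have h5 : Real.exp (ll (L i)) = Real.log (L i) := Real.exp_log hlogL
          rw [← h5]
          exact Real.one_le_exp (by linarith)
        exact this
  have key2 : ∀ᵐ ω ∂μ, ∀ i', max i₀ 3 ≤ i' → (∀ n, 2 ^ i' ≤ n → ω ∉ VV μ ℱ A δ n) → ∀ i₁, i' ≤ i₁ → ∃ i, i₁ ≤ i ∧
      ∃ k, 2 ^ i < k ∧ k ≤ 2 ^ (i + 1) ∧ ω ∈ A k ∧ ∀ j, 1 ≤ j → j ≤ G i → ω ∉ A (k + j) := by
    rw [ae_all_iff]
    intro i'
    by_cases h : max i₀ 3 ≤ i'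
    · filter_upwards [key i' h] with ω hω _
      exact hω
    · exact Eventually.of_forall fun ω h' => absurd h' h
  filter_upwards [key2] with ω hω hn₀ K
  obtain ⟨n₀, hn₀⟩ := hn₀
  have hlt : ∀ m : ℕ, m < 2 ^ m := fun m => Nat.lt_two_pow_self
  obtain ⟨i, hi, k, hk1, hk2, hkA, hk3⟩ := hω (max (max i₀ 3) n₀) (le_max_left _ _) (fun n hn => hn₀ n (by
    have h1 := hlt (max (max i₀ 3) n₀)
    have h2 : n₀ ≤ max (max i₀ 3) n₀ := le_max_right _ _
    omega)) (max (max (max i₀ 3) n₀) K) (le_max_left _ _)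
  refine ⟨k, ?_, hkA, fun j hj1 hj2 => hk3 j hj1 ?_⟩
  · have h1 := hlt i
    have h2 : K ≤ max (max (max i₀ 3) n₀) K := le_max_right _ _
    omega
  · have hi' : i₀ ≤ i := by
      have h1 : i₀ ≤ max i₀ 3 := le_max_left _ _
      have h2 : max i₀ 3 ≤ max (max i₀ 3) n₀ := le_max_left _ _
      have h3 : max (max i₀ 3) n₀ ≤ max (max (max i₀ 3) n₀) K := le_max_left _ _
      omega
    obtain ⟨a1, a2, a3, a4, a5, a6, a7, a8, a9, a10⟩ := hi₀ i hi'
    obtain ⟨b1, b2⟩ := log_dyadic hk1.le hk2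
    have b1' : L i ≤ Real.log k := b1
    have b2' : Real.log k ≤ L i + 1 := b2
    have he : Real.exp 1 ≤ Real.log k := by
      have := Real.exp_one_lt_d9
      linarith
    have h3 : ll (Real.log k) ≤ ll (L i + 1) := ll_mono he b2'
    have h4 : 1 ≤ ll (Real.log k) := a2.trans (ll_mono (by
      have := Real.exp_one_lt_d9
      linarith) b1')
    have h5 : (Real.log k) ^ 2 + θ * Real.log k * ll (Real.log k) ≤ (L i + 1) ^ 2 + θ * (L i + 1) * ll (L i + 1) := by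
      have h6 : (Real.log k) ^ 2 ≤ (L i + 1) ^ 2 := pow_le_pow_left₀ (by linarith) b2' 2
      have h7 : θ * Real.log k * ll (Real.log k) ≤ θ * (L i + 1) * ll (L i + 1) := by
        apply mul_le_mul _ h3 (by linarith) (by
          have : 0 ≤ L i + 1 := by linarith
          positivity)
        exact mul_le_mul_of_nonneg_left b2' hθ
      linarith
    have h6 : (j : ℝ) ≤ G i := (hj2.trans h5).trans (Nat.le_ceil _)
    exact_mod_cast h6

/-- long runs do not occur infinitely often -/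
theorem law_fin (hA : ∀ n, MeasurableSet[ℱ n] (A n)) {θ δ : ℝ} (hθ : θ ≤ 2) (hδ : 0 < δ) (hδ1 : δ ≤ 1)
    (hδθ : 1 < θ - δ) :
    ∀ᵐ ω ∂μ, (∃ n₀ : ℕ, ∀ n, n₀ ≤ n → ω ∉ VV μ ℱ A δ n) → ∃ K : ℕ, ∀ k, K ≤ k → ω ∈ A k →
      ∃ j : ℕ, 1 ≤ j ∧ (j : ℝ) < (Real.log k) ^ 2 + θ * Real.log k * ll (Real.log k) + 1 ∧ ω ∈ A (k + j) := by
  obtain ⟨hl0, hl1, hl2⟩ := log_two_facts
  set L : ℕ → ℝ := fun i => (i : ℝ) * Real.log 2 with hL
  set G : ℕ → ℕ := fun i => ⌈(L i) ^ 2 + θ * (L i) * ll (L i)⌉₊ with hG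
  set l : ℕ → ℝ := fun i => 1 / (L i + 2 + δ * ll (L i + 2)) with hl
  set u : ℕ → ℝ := fun i => 1 / (L i - 1 - δ * ll (L i + 2)) with hu
  have hθ0 : 0 < θ := by linarith
  have hexpL : ∀ i : ℕ, (2 : ℝ) ^ i = Real.exp (L i) := by
    intro i
    rw [hL]
    simp only
    rw [mul_comm, Real.exp_mul, Real.exp_log (by norm_num), Real.rpow_natCast]
  have hev : ∀ᶠ i : ℕ in atTop, 1000 ≤ L i ∧ 1 ≤ ll (L i) ∧ G i ≤ 2 ^ i ∧
      0 < L i - 1 - δ * ll (L i + 2) ∧ u i ≤ 2 / L i ∧ l i ≤ 1 ∧ 0 < L i + 2 + δ * ll (L i + 2) ∧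
      (1 - l i) ^ G i ≤ Real.exp (-(L i + (θ - δ) * ll (L i) - 4)) := by
    have h1 := tendsto_iL.eventually ev_basic
    have h2 := tendsto_iL.eventually (ev_fin θ δ hθ hδ hδ1)
    have h3 : ∀ᶠ x : ℝ in atTop, 8 * x ^ 2 ≤ Real.exp x := by
      have := (Real.isLittleO_pow_exp_atTop (n := 2)).def (show (0 : ℝ) < 1 / 8 by norm_num)
      filter_upwards [this] with x hx
      rw [Real.norm_of_nonneg (by positivity), Real.norm_of_nonneg (Real.exp_pos _).le] at hx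
      linarith
    filter_upwards [h1, h2, tendsto_iL.eventually h3] with i h1 h2 h3
    obtain ⟨hb1, hb2, hb3, hb4, hb5, hb6, hb7⟩ := h1
    have hbL : 1000 ≤ L i := hb1
    have hb2' : 1 ≤ ll (L i) := hb2
    have hb3' : ll (L i) ^ 2 ≤ L i / 100 := hb3
    have hx0 : 0 ≤ (L i) ^ 2 + θ * (L i) * ll (L i) := by positivity
    have hGge : (L i) ^ 2 + θ * (L i) * ll (L i) ≤ G i := Nat.le_ceil _
    obtain ⟨r1, r2, r3, r4, r5⟩ := h2 (G i) hGge
    refine ⟨hb1, hb2, ?_, r1, r2, r3, r4, r5⟩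
    have hGle : (G i : ℝ) ≤ (L i) ^ 2 + θ * (L i) * ll (L i) + 1 := (Nat.ceil_lt_add_one hx0).le
    have h4 : (G i : ℝ) ≤ 2 ^ i := by
      rw [hexpL]
      have h3' : 8 * (L i) ^ 2 ≤ Real.exp (L i) := h3
      have h5 : ll (L i) ≤ L i := by nlinarith
      have h6 : θ * (L i) * ll (L i) ≤ 2 * (L i) * L i := by
        apply mul_le_mul _ h5 (by linarith) (by linarith)
        exact mul_le_mul_of_nonneg_right hθ (by linarith)
      nlinarith
    exact_mod_cast h4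
  obtain ⟨i₀, hi₀⟩ := eventually_atTop.1 hev
  have key : ∀ i', max i₀ 3 ≤ i' → ∀ᵐ ω ∂μ, (∀ n, 2 ^ i' ≤ n + 1 → ω ∉ VV μ ℱ A δ n) → ∃ i₁, ∀ i, i₁ ≤ i →
      ∀ k, 2 ^ i ≤ k → k < 2 ^ (i + 1) → ω ∈ A k → ∃ j, 1 ≤ j ∧ j ≤ G i ∧ ω ∈ A (k + j) := by
    intro i' hi'
    have hi'' : i₀ ≤ i' := (le_max_left _ _).trans hi'
    have hi3 : 3 ≤ i' := (le_max_right _ _).trans hi'
    refine fin (μ := μ) hA (fun n => VV_meas δ n) G l u i' ?_ ?_ ?_ ?_ ?_
    · intro i hi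
      obtain ⟨a1, a2, a3, a4, a5, a6, a7, a8⟩ := hi₀ i (hi''.trans hi)
      exact a3
    · intro i hi
      obtain ⟨a1, a2, a3, a4, a5, a6, a7, a8⟩ := hi₀ i (hi''.trans hi)
      exact a6
    · intro i hi
      obtain ⟨a1, a2, a3, a4, a5, a6, a7, a8⟩ := hi₀ i (hi''.trans hi)
      exact (one_div_pos.2 a4).le
    · intro i hi n hn1 hn2 ω hω
      obtain ⟨a1, a2, a3, a4, a5, a6, a7, a8⟩ := hi₀ i (hi''.trans hi)
      obtain ⟨b1, b2⟩ := log_dyadic' (by omega) hn1 hn2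
      exact bounds hδ.le a1 a4 b1 b2 hω
    · have hc := conv_sum (2 * Real.exp 4) (θ - δ) hδθ
      rw [← summable_nat_add_iff i'] at hc
      refine Summable.of_nonneg_of_le ?_ ?_ hc
      · intro i
        obtain ⟨a1, a2, a3, a4, a5, a6, a7, a8⟩ := hi₀ (i' + i) (by omega)
        have h1 : 0 ≤ (1 - l (i' + i)) ^ G (i' + i) := pow_nonneg (by linarith) _
        have h2 : 0 ≤ u (i' + i) := (one_div_pos.2 a4).le
        positivity
      · intro i
        obtain ⟨a1, a2, a3, a4, a5, a6, a7, a8⟩ := hi₀ (i' + i) (by omega)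
        rw [add_comm i i', hexpL]
        have e2 : ((i' + i : ℕ) : ℝ) * Real.log 2 = L (i' + i) := rfl
        rw [e2]
        obtain ⟨x, hx⟩ : ∃ x, x = L (i' + i) := ⟨_, rfl⟩
        rw [← hx] at a1 a2 a5 a8 ⊢
        have h1 : 0 ≤ (1 - l (i' + i)) ^ G (i' + i) := pow_nonneg (by linarith) _
        calc Real.exp x * (u (i' + i) * (1 - l (i' + i)) ^ G (i' + i))
            ≤ Real.exp x * ((2 / x) * Real.exp (-(x + (θ - δ) * ll x - 4))) :=
              mul_le_mul_of_nonneg_left (mul_le_mul a5 a8 h1 (by positivity)) (Real.exp_pos _).le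
          _ = 2 * Real.exp 4 * (1 / x * Real.exp (-((θ - δ) * ll x))) := by
              have e3 : -(x + (θ - δ) * ll x - 4) = -x + (4 + -((θ - δ) * ll x)) := by ring
              rw [e3, Real.exp_add, Real.exp_add]
              have e4 : Real.exp x * Real.exp (-x) = 1 := by rw [← Real.exp_add, add_neg_cancel, Real.exp_zero]
              calc Real.exp x * (2 / x * (Real.exp (-x) * (Real.exp 4 * Real.exp (-((θ - δ) * ll x)))))
                  = (Real.exp x * Real.exp (-x)) * (2 / x * (Real.exp 4 * Real.exp (-((θ - δ) * ll x)))) := by ring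
                _ = _ := by rw [e4]; ring
  have key2 : ∀ᵐ ω ∂μ, ∀ i', max i₀ 3 ≤ i' → (∀ n, 2 ^ i' ≤ n + 1 → ω ∉ VV μ ℱ A δ n) → ∃ i₁, ∀ i, i₁ ≤ i →
      ∀ k, 2 ^ i ≤ k → k < 2 ^ (i + 1) → ω ∈ A k → ∃ j, 1 ≤ j ∧ j ≤ G i ∧ ω ∈ A (k + j) := by
    rw [ae_all_iff]
    intro i'
    by_cases h : max i₀ 3 ≤ i'
    · filter_upwards [key i' h] with ω hω _
      exact hω
    · exact Eventually.of_forall fun ω h' => absurd h' h
  filter_upwards [key2] with ω hω hn₀
  obtain ⟨n₀, hn₀⟩ := hn₀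
  have hlt : ∀ m : ℕ, m < 2 ^ m := fun m => Nat.lt_two_pow_self
  obtain ⟨i₁, hi₁⟩ := hω (max (max i₀ 3) n₀) (le_max_left _ _) (fun n hn => hn₀ n (by
    have h1 := hlt (max (max i₀ 3) n₀)
    have h2 : n₀ ≤ max (max i₀ 3) n₀ := le_max_right _ _
    omega))
  refine ⟨2 ^ (max i₀ i₁), fun k hk hkA => ?_⟩
  have hk0 : k ≠ 0 := by
    have : 0 < 2 ^ (max i₀ i₁) := by positivity
    omega
  have hi : max i₀ i₁ ≤ Nat.log 2 k := by
    have := Nat.le_log_of_pow_le (b := 2) (by norm_num) hk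
    exact this
  obtain ⟨i, hid⟩ : ∃ i, i = Nat.log 2 k := ⟨_, rfl⟩
  rw [← hid] at hi
  have h1 : 2 ^ i ≤ k := by rw [hid]; exact Nat.pow_log_le_self 2 hk0
  have h2 : k < 2 ^ (i + 1) := by rw [hid]; exact Nat.lt_pow_succ_log_self (by norm_num) k
  obtain ⟨j, hj1, hj2, hj3⟩ := hi₁ i ((le_max_right _ _).trans hi) k h1 h2 hkA
  refine ⟨j, hj1, ?_, hj3⟩
  obtain ⟨a1, a2, a3, a4, a5, a6, a7, a8⟩ := hi₀ i ((le_max_left _ _).trans hi)
  obtain ⟨b1, b2⟩ := log_dyadic h1 h2.le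
  have b1' : L i ≤ Real.log k := b1
  have h3 : ll (L i) ≤ ll (Real.log k) := ll_mono (by
      have := Real.exp_one_lt_d9
      linarith) b1'
  have h5 : (L i) ^ 2 + θ * (L i) * ll (L i) ≤ (Real.log k) ^ 2 + θ * Real.log k * ll (Real.log k) := by
    have h6 : (L i) ^ 2 ≤ (Real.log k) ^ 2 := pow_le_pow_left₀ (by linarith) b1' 2
    have h7 : θ * L i * ll (L i) ≤ θ * Real.log k * ll (Real.log k) := by
      apply mul_le_mul _ h3 (by linarith) (by
        have : 0 ≤ Real.log k := by linarith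
        positivity)
      exact mul_le_mul_of_nonneg_left b1' hθ0.le
    linarith
  have h6 : (j : ℝ) ≤ G i := by exact_mod_cast hj2
  have hx0 : 0 ≤ (L i) ^ 2 + θ * (L i) * ll (L i) := by
    have : 0 ≤ L i := by linarith
    have : 0 ≤ ll (L i) := by linarith
    positivity
  have h7 : (G i : ℝ) < (L i) ^ 2 + θ * (L i) * ll (L i) + 1 := Nat.ceil_lt_add_one hx0
  linarith

end Pool.Agent.R528.RM
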