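import Mathlib
import Pool.Agent.H50.G.S.R528.RM.Law
set_option autoImplicit false
set_option linter.unusedSectionVars false

/-! # The second order law in terms of consecutive members -/

open MeasureTheory Filter Set
open scoped ENNReal Topology

namespace Pool.Agent.R528.RM

/-- the member number `n` of `S` in increasing order, the least member having number `0` -/
noncomputable def pn (S : Set ℕ) (n : ℕ) : ℕ := Nat.nth (· ∈ S) n

/-- the number of integers strictly between the member number `n` and the next member of `S` -/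
noncomputable def gap (S : Set ℕ) (n : ℕ) : ℕ := pn S (n + 1) - pn S n - 1

/-- the random set -/
def rset {Ω : Type} (A : ℕ → Set Ω) (ω : Ω) : Set ℕ := {k | ω ∈ A k}

lemma nth_mem {S : Set ℕ} (hS : S.Infinite) (n : ℕ) : pn S n ∈ S :=
  Nat.nth_mem_of_infinite (p := (· ∈ S)) hS n

lemma nth_mono {S : Set ℕ} (hS : S.Infinite) : StrictMono (pn S) :=
  Nat.nth_strictMono (p := (· ∈ S)) hS

lemma exists_nth {S : Set ℕ} {k : ℕ} (hk : k ∈ S) : ∃ n, pn S n = k := by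
  classical
  exact ⟨Nat.count (· ∈ S) k, Nat.nth_count (p := (· ∈ S)) hk⟩

lemma gap_lt {S : Set ℕ} (hS : S.Infinite) {n j : ℕ} {x : ℝ} (hj : 1 ≤ j) (hjx : (j : ℝ) < x + 1)
    (h : pn S n + j ∈ S) : (gap S n : ℝ) < x := by
  obtain ⟨m, hm⟩ := exists_nth h
  have h1 : n < m := by
    rw [← (nth_mono hS).lt_iff_lt, hm]
    omega
  have h2 : pn S (n + 1) ≤ pn S n + j := by
    rw [← hm]
    exact (nth_mono hS).monotone h1
  have h3 : gap S n + 1 ≤ j := by
    unfold gap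
    have := nth_mono hS (Nat.lt_succ_self n)
    simp only [Nat.succ_eq_add_one] at this
    omega
  have h4 : (gap S n : ℝ) + 1 ≤ j := by exact_mod_cast h3
  linarith

lemma le_gap {S : Set ℕ} (hS : S.Infinite) {n : ℕ} {x : ℝ}
    (h : ∀ j : ℕ, 1 ≤ j → (j : ℝ) ≤ x + 1 → pn S n + j ∉ S) : x ≤ gap S n := by
  have h0 := nth_mono hS (Nat.lt_succ_self n)
  simp only [Nat.succ_eq_add_one] at h0
  by_contra hcon
  push Not at hcon
  have h1 : pn S (n + 1) = pn S n + (gap S n + 1) := by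
    unfold gap
    omega
  refine h (gap S n + 1) (by omega) ?_ ?_
  · push_cast
    linarith
  · rw [← h1]
    exact nth_mem hS (n + 1)

lemma infinite_of {S : Set ℕ} (h : ∀ K : ℕ, ∃ k, K ≤ k ∧ k ∈ S) : S.Infinite := by
  rw [Set.infinite_iff_exists_gt]
  intro a
  obtain ⟨k, hk, hkS⟩ := h (a + 1)
  exact ⟨k, hkS, hk⟩

/-- frequently -/
lemma freq_of {S : Set ℕ} (hS : S.Infinite) {P : ℕ → Prop}
    (h : ∀ K : ℕ, ∃ k, K ≤ k ∧ k ∈ S ∧ ∀ n, pn S n = k → P n) : ∃ᶠ n in atTop, P n := by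
  rw [frequently_atTop]
  intro N
  obtain ⟨k, hk, hkS, hP⟩ := h (pn S N)
  obtain ⟨n, hn⟩ := exists_nth hkS
  refine ⟨n, ?_, hP n hn⟩
  rw [← (nth_mono hS).le_iff_le, hn]
  exact hk

lemma tendsto_nth {S : Set ℕ} (hS : S.Infinite) : Tendsto (pn S) atTop atTop :=
  (nth_mono hS).tendsto_atTop

lemma tendsto_lll : Tendsto (fun n : ℕ => ll (Real.log n)) atTop atTop :=
  (Real.tendsto_log_atTop.comp Real.tendsto_log_atTop).comp
    (Real.tendsto_log_atTop.comp tendsto_natCast_atTop_atTop)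

lemma tendsto_log : Tendsto (fun n : ℕ => Real.log n) atTop atTop :=
  Real.tendsto_log_atTop.comp tendsto_natCast_atTop_atTop

variable {Ω : Type} {m0 : MeasurableSpace Ω} {μ : Measure Ω} [IsProbabilityMeasure μ]
  {ℱ : Filtration ℕ m0} {A : ℕ → Set Ω}

lemma no_violation {ω : Ω} (h : Tendsto (fun n : ℕ => ((dens μ ℱ A n ω)⁻¹ - Real.log n) /
    Real.log (Real.log (Real.log n))) atTop (𝓝 0)) {δ : ℝ} (hδ : 0 < δ) :
    ∃ n₀ : ℕ, ∀ n, n₀ ≤ n → ω ∉ VV μ ℱ A δ n := by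
  rw [← eventually_atTop]
  have h1 := h.eventually (Metric.ball_mem_nhds 0 hδ)
  filter_upwards [h1, tendsto_lll.eventually_gt_atTop 0] with n hn hpos
  have hn : dist (((dens μ ℱ A n ω)⁻¹ - Real.log ↑n) / Real.log (Real.log (Real.log ↑n))) 0 < δ := hn
  rw [dist_zero_right, Real.norm_eq_abs, abs_div] at hn
  simp only [VV, mem_ofPred_eq, not_not]
  have h2 : Real.log (Real.log (Real.log n)) = ll (Real.log n) := rfl
  rw [h2, abs_of_pos hpos, div_lt_iff₀ hpos] at hn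
  exact hn.le

/-- **the second order law** -/
theorem second_order (hA : ∀ n, MeasurableSet[ℱ n] (A n))
    (hd : ∀ᵐ ω ∂μ, Tendsto (fun n : ℕ => ((dens μ ℱ A n ω)⁻¹ - Real.log n) /
      Real.log (Real.log (Real.log n))) atTop (𝓝 0)) :
    ∀ᵐ ω ∂μ, (rset A ω).Infinite ∧ ∀ ε : ℝ, 0 < ε →
      (∀ᶠ n in atTop, (gap (rset A ω) n : ℝ) <
        (Real.log (pn (rset A ω) n)) ^ 2 + (1 + ε) * Real.log (pn (rset A ω) n) *
          Real.log (Real.log (Real.log (pn (rset A ω) n)))) ∧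
      (∃ᶠ n in atTop, (Real.log (pn (rset A ω) n)) ^ 2 +
          (1 - ε) * Real.log (pn (rset A ω) n) *
          Real.log (Real.log (Real.log (pn (rset A ω) n))) ≤ gap (rset A ω) n) := by
  have h1 : ∀ m : ℕ, ∀ᵐ ω ∂μ, (∃ n₀ : ℕ, ∀ n, n₀ ≤ n → ω ∉ VV μ ℱ A (1 / ((m : ℝ) + 1)) n) →
      ∀ K : ℕ, ∃ k, K ≤ k ∧ ω ∈ A k ∧ ∀ j : ℕ, 1 ≤ j → (j : ℝ) ≤ (Real.log k) ^ 2 +
        (1 - 1 / ((m : ℝ) + 1)) * Real.log k * ll (Real.log k) → ω ∉ A (k + j) := by
    intro m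
    have hm : 0 < (m : ℝ) + 1 := by positivity
    refine law_io hA ?_ (by positivity) (by linarith)
    rw [sub_nonneg, div_le_one hm]
    have : (0 : ℝ) ≤ m := Nat.cast_nonneg m
    linarith
  have h2 : ∀ m : ℕ, ∀ᵐ ω ∂μ, (∃ n₀ : ℕ, ∀ n, n₀ ≤ n → ω ∉ VV μ ℱ A (1 / ((m : ℝ) + 1) / 2) n) →
      ∃ K : ℕ, ∀ k, K ≤ k → ω ∈ A k → ∃ j : ℕ, 1 ≤ j ∧ (j : ℝ) < (Real.log k) ^ 2 +
        (1 + 1 / ((m : ℝ) + 1)) * Real.log k * ll (Real.log k) + 1 ∧ ω ∈ A (k + j) := by
    intro m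
    have hm : 0 < (m : ℝ) + 1 := by positivity
    have hm1 : 1 / ((m : ℝ) + 1) ≤ 1 := by
      rw [div_le_one hm]
      have : (0 : ℝ) ≤ m := Nat.cast_nonneg m
      linarith
    have hm2 : 0 < 1 / ((m : ℝ) + 1) := by positivity
    exact law_fin hA (by linarith) (by positivity) (by linarith) (by linarith)
  filter_upwards [hd, ae_all_iff.2 h1, ae_all_iff.2 h2] with ω hdω h1 h2
  obtain ⟨S, hS⟩ : ∃ S : Set ℕ, S = rset A ω := ⟨_, rfl⟩
  have hmem : ∀ k, k ∈ S ↔ ω ∈ A k := fun k => by rw [hS]; rfl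
  rw [← hS]
  have hSinf : S.Infinite := by
    apply infinite_of
    intro K
    obtain ⟨k, hk, hkA, _⟩ := h1 0 (no_violation hdω (by norm_num)) K
    exact ⟨k, hk, (hmem k).2 hkA⟩
  refine ⟨hSinf, fun ε hε => ?_⟩
  obtain ⟨m, hm⟩ := exists_nat_one_div_lt hε
  have hm2 : 0 < 1 / ((m : ℝ) + 1) := by positivity
  have hlog := tendsto_log.eventually_gt_atTop 0
  have hlll := tendsto_lll.eventually_gt_atTop 0
  constructor
  · obtain ⟨K, hK⟩ := h2 m (no_violation hdω (by positivity))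
    have ht := tendsto_nth hSinf
    filter_upwards [ht.eventually hlog, ht.eventually hlll, ht.eventually_ge_atTop K] with n h3 h4 h5
    obtain ⟨j, hj1, hj2, hj3⟩ := hK _ h5 ((hmem _).1 (nth_mem hSinf n))
    refine gap_lt hSinf hj1 (hj2.trans_le ?_) ((hmem _).2 hj3)
    have h6 : (1 + 1 / ((m : ℝ) + 1)) * (Real.log (pn S n) * ll (Real.log (pn S n))) ≤
        (1 + ε) * (Real.log (pn S n) * ll (Real.log (pn S n))) :=
      mul_le_mul_of_nonneg_right (by linarith) (mul_pos h3 h4).le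
    unfold ll at h6
    unfold ll
    linarith
  · have hbig : ∀ᶠ n : ℕ in atTop, 1 ≤ (ε - 1 / ((m : ℝ) + 1)) * (Real.log n * ll (Real.log n)) := by
      have := (tendsto_log.atTop_mul_atTop₀ tendsto_lll).const_mul_atTop (show 0 < ε - 1 / ((m : ℝ) + 1) by linarith)
      exact this.eventually_ge_atTop 1
    obtain ⟨K₀, hK₀⟩ := eventually_atTop.1 hbig
    apply freq_of hSinf
    intro K
    obtain ⟨k, hk, hkA, hk3⟩ := h1 m (no_violation hdω (by positivity)) (max K K₀)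
    refine ⟨k, (le_max_left _ _).trans hk, (hmem k).2 hkA, fun n hn => ?_⟩
    apply le_gap hSinf
    intro j hj1 hj2
    rw [hn] at hj2 ⊢
    rw [hmem]
    refine hk3 j hj1 (hj2.trans ?_)
    have h5 := hK₀ k ((le_max_right _ _).trans hk)
    unfold ll at h5
    unfold ll
    nlinarith

end Pool.Agent.R528.RM
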