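import Mathlib
import Pool.Agent.H50.G.S.R528.RM.Basic
set_option autoImplicit false
set_option linter.unusedSectionVars false

/-! # Independent trials in disjoint blocks -/

open MeasureTheory Filter Set
open scoped ENNReal Topology

namespace Pool.Agent.R528.RM

variable {Ω : Type} {m0 : MeasurableSpace Ω} {μ : Measure Ω} [IsProbabilityMeasure μ]
  {ℱ : Filtration ℕ m0} {A : ℕ → Set Ω}

/-- remove the successes of the first `m` blocks of length `H` after `s` -/
def RB (D : ℕ → Set Ω) (B : Set Ω) : ℕ → Set Ω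
  | 0 => B
  | m + 1 => RB D B m \ D m

lemma RB_meas {D : ℕ → Set Ω} {B : Set Ω} {s H M : ℕ} (hB : MeasurableSet[ℱ s] B)
    (hD : ∀ m < M, MeasurableSet[ℱ (s + H * (m + 1))] (D m)) (m : ℕ) (hm : m ≤ M) :
    MeasurableSet[ℱ (s + H * m)] (RB D B m) := by
  induction m with
  | zero => exact hB
  | succ m ih =>
    have h1 := ih (by omega)
    exact (ℱ.mono (by nlinarith) _ h1).diff (hD m (by omega))

theorem RB_le {D : ℕ → Set Ω} {B : Set Ω} {s H M : ℕ} (hB : MeasurableSet[ℱ s] B)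
    (hD : ∀ m < M, MeasurableSet[ℱ (s + H * (m + 1))] (D m)) {p : ℝ}
    (hp : ∀ m < M, ∀ C, MeasurableSet[ℱ (s + H * m)] C → p * μ.real C ≤ μ.real (C ∩ D m)) :
    ∀ m ≤ M, μ.real (RB D B m) ≤ Real.exp (-(m * p)) * μ.real B := by
  intro m
  induction m with
  | zero => intro _; simp [RB]
  | succ m ih =>
    intro hm
    have ih := ih (by omega)
    have hC := RB_meas hB hD m (by omega)
    have h1 := hp m (by omega) _ hC
    have hD0 : MeasurableSet (D m) := ℱ.le _ _ (hD m (by omega))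
    have h2 := measureReal_inter_add_sdiff (μ := μ) (s := RB D B m) hD0
    have h3 : RB D B (m + 1) = RB D B m \ D m := rfl
    have h4 : μ.real (RB D B (m + 1)) ≤ (1 - p) * μ.real (RB D B m) := by
      rw [h3]
      linarith
    have h5 : 1 - p ≤ Real.exp (-p) := by
      have := Real.add_one_le_exp (-p)
      linarith
    have h6 : 0 ≤ μ.real (RB D B m) := measureReal_nonneg
    calc μ.real (RB D B (m + 1)) ≤ (1 - p) * μ.real (RB D B m) := h4
      _ ≤ Real.exp (-p) * (Real.exp (-(m * p)) * μ.real B) := mul_le_mul h5 ih h6 (Real.exp_pos _).le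
      _ = Real.exp (-(((m + 1 : ℕ) : ℝ) * p)) * μ.real B := by
        rw [← mul_assoc, ← Real.exp_add]
        congr 2
        push_cast
        ring

/-- no success in the scales `i₀, ..., i₀ + n - 1` -/
def RC (D : ℕ → ℕ → Set Ω) (M : ℕ → ℕ) (i₀ : ℕ) : ℕ → Set Ω
  | 0 => univ
  | n + 1 => RB (D (i₀ + n)) (RC D M i₀ n) (M (i₀ + n))

lemma RC_meas {D : ℕ → ℕ → Set Ω} {H M : ℕ → ℕ} {i₀ : ℕ}
    (hHM : ∀ i, i₀ ≤ i → H i * M i ≤ 2 ^ i)
    (hD : ∀ i, i₀ ≤ i → ∀ m < M i, MeasurableSet[ℱ (2 ^ i + H i * (m + 1))] (D i m)) (n : ℕ) :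
    MeasurableSet[ℱ (2 ^ (i₀ + n))] (RC D M i₀ n) := by
  induction n with
  | zero => exact MeasurableSet.univ
  | succ n ih =>
    have h1 := RB_meas ih (hD (i₀ + n) (by omega)) (M (i₀ + n)) le_rfl
    refine ℱ.mono ?_ _ h1
    have := hHM (i₀ + n) (by omega)
    have e : 2 ^ (i₀ + (n + 1)) = 2 ^ (i₀ + n) + 2 ^ (i₀ + n) := by
      rw [← add_assoc, pow_succ]; ring
    omega

theorem RC_le {D : ℕ → ℕ → Set Ω} {H M : ℕ → ℕ} {i₀ : ℕ}
    (hHM : ∀ i, i₀ ≤ i → H i * M i ≤ 2 ^ i)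
    (hD : ∀ i, i₀ ≤ i → ∀ m < M i, MeasurableSet[ℱ (2 ^ i + H i * (m + 1))] (D i m))
    (p : ℕ → ℝ)
    (hp : ∀ i, i₀ ≤ i → ∀ m < M i, ∀ C, MeasurableSet[ℱ (2 ^ i + H i * m)] C →
      p i * μ.real C ≤ μ.real (C ∩ D i m)) (n : ℕ) :
    μ.real (RC D M i₀ n) ≤ Real.exp (-∑ i ∈ Finset.range n, M (i₀ + i) * p (i₀ + i)) := by
  induction n with
  | zero => simp [RC]
  | succ n ih =>
    have h1 := RB_le (μ := μ) (RC_meas hHM hD n) (hD (i₀ + n) (by omega))
      (hp (i₀ + n) (by omega)) (M (i₀ + n)) le_rfl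
    rw [Finset.sum_range_succ, neg_add, Real.exp_add, mul_comm]
    exact h1.trans (mul_le_mul_of_nonneg_left ih (Real.exp_pos _).le)

lemma not_mem_RB {D : ℕ → Set Ω} {B : Set Ω} {M : ℕ} {ω : Ω} (hB : ω ∈ B) (h : ω ∉ RB D B M) :
    ∃ m < M, ω ∈ D m := by
  induction M with
  | zero => exact absurd hB h
  | succ M ih =>
    by_cases h1 : ω ∈ RB D B M
    · refine ⟨M, Nat.lt_succ_self M, ?_⟩
      by_contra h2
      exact h ⟨h1, h2⟩
    · obtain ⟨m, hm, h2⟩ := ih h1
      exact ⟨m, hm.trans (Nat.lt_succ_self M), h2⟩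

lemma not_mem_RC {D : ℕ → ℕ → Set Ω} {M : ℕ → ℕ} {i₀ n : ℕ} {ω : Ω} (h : ω ∉ RC D M i₀ n) :
    ∃ i, i₀ ≤ i ∧ ∃ m < M i, ω ∈ D i m := by
  induction n with
  | zero => exact absurd (mem_univ ω) h
  | succ n ih =>
    by_cases h1 : ω ∈ RC D M i₀ n
    · obtain ⟨m, hm, h2⟩ := not_mem_RB h1 h
      exact ⟨i₀ + n, by omega, m, hm, h2⟩
    · exact ih h1

/-- successes in blocks at infinitely many scales -/
theorem io_blocks {D : ℕ → ℕ → Set Ω} {H M : ℕ → ℕ} {i₀ : ℕ}
    (hHM : ∀ i, i₀ ≤ i → H i * M i ≤ 2 ^ i)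
    (hD : ∀ i, i₀ ≤ i → ∀ m < M i, MeasurableSet[ℱ (2 ^ i + H i * (m + 1))] (D i m))
    (p : ℕ → ℝ)
    (hp : ∀ i, i₀ ≤ i → ∀ m < M i, ∀ C, MeasurableSet[ℱ (2 ^ i + H i * m)] C →
      p i * μ.real C ≤ μ.real (C ∩ D i m))
    (hsum : ∀ i, i₀ ≤ i → 1 ≤ M i * p i) :
    ∀ᵐ ω ∂μ, ∀ i₁ : ℕ, ∃ i, i₁ ≤ i ∧ i₀ ≤ i ∧ ∃ m < M i, ω ∈ D i m := by
  have h1 : ∀ i₁, i₀ ≤ i₁ → μ (⋂ n, RC D M i₁ n) = 0 := by
    intro i₁ hi₁
    have h2 : ∀ n : ℕ, μ.real (⋂ n, RC D M i₁ n) ≤ Real.exp (-(n : ℝ)) := by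
      intro n
      refine le_trans (measureReal_mono (iInter_subset _ n)) ?_
      refine (RC_le (μ := μ) (fun i hi => hHM i (hi₁.trans hi)) (fun i hi => hD i (hi₁.trans hi)) p
        (fun i hi => hp i (hi₁.trans hi)) n).trans ?_
      apply Real.exp_le_exp.2
      have h3 : (n : ℝ) = ∑ i ∈ Finset.range n, (1 : ℝ) := by simp
      rw [neg_le_neg_iff, h3]
      exact Finset.sum_le_sum fun i _ => hsum (i₁ + i) (by omega)
    have h3 : Tendsto (fun n : ℕ => Real.exp (-(n : ℝ))) atTop (𝓝 0) :=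
      Real.tendsto_exp_neg_atTop_nhds_zero.comp tendsto_natCast_atTop_atTop
    have h4 : μ.real (⋂ n, RC D M i₁ n) ≤ 0 := ge_of_tendsto' h3 h2
    have h5 : μ.real (⋂ n, RC D M i₁ n) = 0 := le_antisymm h4 measureReal_nonneg
    rw [measureReal_eq_zero_iff] at h5
    exact h5
  have h2 : ∀ᵐ ω ∂μ, ∀ i₁, i₀ ≤ i₁ → ω ∉ ⋂ n, RC D M i₁ n := by
    rw [ae_all_iff]
    intro i₁
    by_cases hi₁ : i₀ ≤ i₁
    · have := measure_eq_zero_iff_ae_notMem.1 (h1 i₁ hi₁)
      filter_upwards [this] with ω hω _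
      exact hω
    · exact Eventually.of_forall fun ω h => absurd h hi₁
  filter_upwards [h2] with ω hω i₁
  have h3 := hω (max i₀ i₁) (le_max_left _ _)
  rw [mem_iInter, not_forall] at h3
  obtain ⟨n, hn⟩ := h3
  obtain ⟨i, hi, m, hm, h4⟩ := not_mem_RC hn
  exact ⟨i, (le_max_right _ _).trans hi, (le_max_left _ _).trans hi, m, hm, h4⟩

/-! ### exact counts in a window -/

open Classical in
/-- the number of members among `t + 1, ..., t + j` -/
noncomputable def cnt (A : ℕ → Set Ω) (t j : ℕ) (ω : Ω) : ℕ :=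
  ∑ r ∈ Finset.range j, if ω ∈ A (t + 1 + r) then 1 else 0

/-- a violation at one of `t, ..., t + j - 1` -/
def WV (V : ℕ → Set Ω) (t j : ℕ) : Set Ω := {ω | ∃ n, t ≤ n ∧ n < t + j ∧ ω ∈ V n}

open Classical in
lemma cnt_succ (t j : ℕ) (ω : Ω) :
    cnt A t (j + 1) ω = cnt A (t + 1) j ω + if ω ∈ A (t + 1) then 1 else 0 := by
  unfold cnt
  rw [Finset.sum_range_succ']
  congr 1
  apply Finset.sum_congr rfl
  intro r _
  have e : t + 1 + (r + 1) = t + 1 + 1 + r := by ring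
  rw [e]

lemma WV_succ (V : ℕ → Set Ω) (t j : ℕ) : WV V t (j + 1) = V t ∪ WV V (t + 1) j := by
  ext ω
  simp only [WV, mem_ofPred_eq, mem_union]
  constructor
  · rintro ⟨n, h1, h2, h3⟩
    rcases Nat.eq_or_lt_of_le h1 with h | h
    · left; rw [h]; exact h3
    · right; exact ⟨n, h, by omega, h3⟩
  · rintro (h | ⟨n, h1, h2, h3⟩)
    · exact ⟨t, le_rfl, by omega, h⟩
    · exact ⟨n, by omega, by omega, h3⟩

lemma WV_zero (V : ℕ → Set Ω) (t : ℕ) : WV V t 0 = ∅ := by
  ext ω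
  simp only [WV, mem_ofPred_eq, mem_empty_iff_false, iff_false]
  rintro ⟨n, h1, h2, _⟩
  omega

lemma WV_meas {V : ℕ → Set Ω} (hV : ∀ n, MeasurableSet[ℱ n] (V n)) (t j : ℕ) :
    MeasurableSet[ℱ (t + j)] (WV V t j) := by
  induction j generalizing t with
  | zero => rw [WV_zero]; exact @MeasurableSet.empty _ (ℱ (t + 0))
  | succ j ih =>
    rw [WV_succ]
    have h1 := ih (t + 1)
    have e : t + 1 + j = t + (j + 1) := by ring
    rw [e] at h1
    exact @MeasurableSet.union _ (ℱ (t + (j + 1))) _ _ (ℱ.mono (by omega) _ (hV t)) h1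

lemma cnt_meas (hA : ∀ n, MeasurableSet[ℱ n] (A n)) (t j k : ℕ) :
    MeasurableSet[ℱ (t + j)] {ω | cnt A t j ω = k} := by
  induction j generalizing t k with
  | zero =>
    by_cases hk : k = 0
    · have : {ω | cnt A t 0 ω = k} = univ := by ext ω; simp [cnt, hk]
      rw [this]
      exact @MeasurableSet.univ _ (ℱ (t + 0))
    · have : {ω | cnt A t 0 ω = k} = ∅ := by
        ext ω
        simp only [cnt, Finset.range_zero, Finset.sum_empty, mem_ofPred_eq, mem_empty_iff_false, iff_false]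
        omega
      rw [this]
      exact @MeasurableSet.empty _ (ℱ (t + 0))
  | succ j ih =>
    have e : t + 1 + j = t + (j + 1) := by ring
    have hA1 : MeasurableSet[ℱ (t + (j + 1))] (A (t + 1)) := ℱ.mono (by omega) _ (hA (t + 1))
    have h1 := ih (t + 1) k
    rw [e] at h1
    cases k with
    | zero =>
      have : {ω | cnt A t (j + 1) ω = 0} = {ω | cnt A (t + 1) j ω = 0} \ A (t + 1) := by
        ext ω
        simp only [mem_ofPred_eq, Set.mem_sdiff, cnt_succ]
        by_cases h : ω ∈ A (t + 1) <;> simp [h]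
      rw [this]
      exact @MeasurableSet.diff _ (ℱ (t + (j + 1))) _ _ h1 hA1
    | succ k =>
      have h2 := ih (t + 1) k
      rw [e] at h2
      have : {ω | cnt A t (j + 1) ω = k + 1} =
          ({ω | cnt A (t + 1) j ω = k} ∩ A (t + 1)) ∪ ({ω | cnt A (t + 1) j ω = k + 1} \ A (t + 1)) := by
        ext ω
        simp only [mem_ofPred_eq, Set.mem_sdiff, cnt_succ, mem_union, mem_inter_iff]
        by_cases h : ω ∈ A (t + 1) <;> simp [h]
      rw [this]
      exact @MeasurableSet.union _ (ℱ (t + (j + 1))) _ _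
        (@MeasurableSet.inter _ (ℱ (t + (j + 1))) _ _ h2 hA1)
        (@MeasurableSet.diff _ (ℱ (t + (j + 1))) _ _ h1 hA1)

/-- lower bound for the probability of an exact count or a violation -/
theorem cnt_ge (hA : ∀ n, MeasurableSet[ℱ n] (A n)) {V : ℕ → Set Ω}
    (hV : ∀ n, MeasurableSet[ℱ n] (V n)) {l u : ℝ} (hl0 : 0 ≤ l) (hu1 : u ≤ 1) (hlu : l ≤ u) (j : ℕ) :
    ∀ t, (∀ n, t ≤ n → n < t + j → ∀ ω, ω ∉ V n → l ≤ dens μ ℱ A n ω ∧ dens μ ℱ A n ω ≤ u) →
      ∀ k ≤ j, ∀ B, MeasurableSet[ℱ t] B → (j.choose k : ℝ) * l ^ k * (1 - u) ^ (j - k) * μ.real B ≤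
        μ.real (B ∩ ({ω | cnt A t j ω = k} ∪ WV V t j)) := by
  induction j with
  | zero =>
    intro t _ k hk B _
    have : k = 0 := by omega
    subst this
    have e : {ω | cnt A t 0 ω = 0} = univ := by ext ω; simp [cnt]
    rw [e]
    simp
  | succ j ih =>
    intro t hbd k hk B hB
    have hV0 : MeasurableSet (V t) := ℱ.le _ _ (hV t)
    have hA0 : MeasurableSet (A (t + 1)) := ℱ.le _ _ (hA _)
    have hBV : MeasurableSet[ℱ t] (B \ V t) := @MeasurableSet.diff _ (ℱ t) _ _ hB (hV t)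
    have hC : MeasurableSet[ℱ (t + 1)] ((B \ V t) ∩ A (t + 1)) :=
      @MeasurableSet.inter _ (ℱ (t + 1)) _ _ (ℱ.mono (Nat.le_succ t) _ hBV) (hA (t + 1))
    have hC' : MeasurableSet[ℱ (t + 1)] ((B \ V t) \ A (t + 1)) :=
      @MeasurableSet.diff _ (ℱ (t + 1)) _ _ (ℱ.mono (Nat.le_succ t) _ hBV) (hA (t + 1))
    have hbd' : ∀ n, t + 1 ≤ n → n < t + 1 + j → ∀ ω, ω ∉ V n → l ≤ dens μ ℱ A n ω ∧ dens μ ℱ A n ω ≤ u :=
      fun n h1 h2 => hbd n (by omega) (by omega)
    have hlow := lower_meas (μ := μ) hA t hBV (l := l) (fun ω hω => (hbd t le_rfl (by omega) ω hω.2).1)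
    have hupp := upper_meas (μ := μ) hA t hBV (u := u) (fun ω hω => (hbd t le_rfl (by omega) ω hω.2).2)
    have hsplit := measureReal_inter_add_sdiff (μ := μ) (s := B \ V t) hA0
    -- decomposition of the target set
    set X : Set Ω := B ∩ ({ω | cnt A t (j + 1) ω = k} ∪ WV V t (j + 1)) with hX
    have hXV : μ.real X = μ.real (X ∩ V t) + μ.real (X \ V t) :=
      (measureReal_inter_add_sdiff (μ := μ) (s := X) hV0).symm
    have hXA : μ.real (X \ V t) = μ.real ((X \ V t) ∩ A (t + 1)) + μ.real ((X \ V t) \ A (t + 1)) :=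
      (measureReal_inter_add_sdiff (μ := μ) (s := X \ V t) hA0).symm
    have e1 : X ∩ V t = B ∩ V t := by
      ext ω
      simp only [hX, WV_succ, mem_inter_iff, mem_union, mem_ofPred_eq]
      tauto
    have hBVs : μ.real B = μ.real (B ∩ V t) + μ.real (B \ V t) :=
      (measureReal_inter_add_sdiff (μ := μ) (s := B) hV0).symm
    have e2 : (X \ V t) \ A (t + 1) = ((B \ V t) \ A (t + 1)) ∩ ({ω | cnt A (t + 1) j ω = k} ∪ WV V (t + 1) j) := by
      ext ω
      simp only [hX, WV_succ, mem_inter_iff, mem_union, mem_ofPred_eq, Set.mem_sdiff, cnt_succ]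
      by_cases h : ω ∈ A (t + 1)
      · simp [h]
      · by_cases h' : ω ∈ V t
        · simp [h, h']
        · simp [h, h']
    have hq0 : 0 ≤ 1 - u := by linarith
    have hBV0 : 0 ≤ μ.real (B \ V t) := measureReal_nonneg
    have hBVn : 0 ≤ μ.real (B ∩ V t) := measureReal_nonneg
    rw [hXV, hXA, e1, e2, hBVs]
    have hterm : (j + 1).choose k * l ^ k * (1 - u) ^ (j + 1 - k) ≤ 1 := by
      have h1 : ((j + 1).choose k : ℝ) * l ^ k * (1 - u) ^ (j + 1 - k) ≤ (l + (1 - u)) ^ (j + 1) := by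
        rw [add_pow]
        have h2 : ((j + 1).choose k : ℝ) * l ^ k * (1 - u) ^ (j + 1 - k) =
            l ^ k * (1 - u) ^ (j + 1 - k) * ((j + 1).choose k : ℝ) := by ring
        rw [h2]
        exact Finset.single_le_sum (f := fun k => l ^ k * (1 - u) ^ (j + 1 - k) * ((j + 1).choose k : ℝ))
          (fun i _ => by positivity) (Finset.mem_range.2 (by omega))
      exact h1.trans (pow_le_one₀ (by linarith) (by linarith))
    have hV1 : (j + 1).choose k * l ^ k * (1 - u) ^ (j + 1 - k) * μ.real (B ∩ V t) ≤ μ.real (B ∩ V t) := by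
      nlinarith
    cases k with
    | zero =>
      have e3 : (0 : ℝ) ≤ μ.real ((X \ V t) ∩ A (t + 1)) := measureReal_nonneg
      have h1 := ih (t + 1) hbd' 0 (Nat.zero_le _) _ hC'
      simp only [Nat.choose_zero_right, Nat.cast_one, pow_zero, mul_one, one_mul, Nat.sub_zero] at h1 hV1 ⊢
      have h2 : (1 - u) * μ.real (B \ V t) ≤ μ.real ((B \ V t) \ A (t + 1)) := by linarith
      have h3 : (1 - u) ^ (j + 1) * μ.real (B \ V t) ≤ (1 - u) ^ j * μ.real ((B \ V t) \ A (t + 1)) := by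
        have h4 : (1 - u) ^ (j + 1) * μ.real (B \ V t) = (1 - u) ^ j * ((1 - u) * μ.real (B \ V t)) := by ring
        rw [h4]
        exact mul_le_mul_of_nonneg_left h2 (pow_nonneg hq0 _)
      have h5 : (1 - u) ^ (j + 1) * (μ.real (B ∩ V t) + μ.real (B \ V t)) =
          (1 - u) ^ (j + 1) * μ.real (B ∩ V t) + (1 - u) ^ (j + 1) * μ.real (B \ V t) := by ring
      rw [h5]
      linarith
    | succ k =>
      have e3 : (X \ V t) ∩ A (t + 1) = ((B \ V t) ∩ A (t + 1)) ∩ ({ω | cnt A (t + 1) j ω = k} ∪ WV V (t + 1) j) := by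
        ext ω
        simp only [hX, WV_succ, mem_inter_iff, mem_union, mem_ofPred_eq, Set.mem_sdiff, cnt_succ]
        by_cases h : ω ∈ A (t + 1)
        · by_cases h' : ω ∈ V t
          · simp [h, h']
          · simp [h, h']
        · simp [h]
      have h1 := ih (t + 1) hbd' k (by omega) _ hC
      have h2 : l ^ (k + 1) * (1 - u) ^ (j - k) * (j.choose k : ℝ) * μ.real (B \ V t) ≤
          (j.choose k : ℝ) * l ^ k * (1 - u) ^ (j - k) * μ.real ((B \ V t) ∩ A (t + 1)) := by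
        have h3 : (j.choose k : ℝ) * l ^ k * (1 - u) ^ (j - k) * (l * μ.real (B \ V t)) ≤
            (j.choose k : ℝ) * l ^ k * (1 - u) ^ (j - k) * μ.real ((B \ V t) ∩ A (t + 1)) :=
          mul_le_mul_of_nonneg_left hlow (by positivity)
        have h4 : l ^ (k + 1) * (1 - u) ^ (j - k) * (j.choose k : ℝ) * μ.real (B \ V t) =
          (j.choose k : ℝ) * l ^ k * (1 - u) ^ (j - k) * (l * μ.real (B \ V t)) := by ring
        rw [h4]
        exact h3
      have h6 : (j.choose (k + 1) : ℝ) * l ^ (k + 1) * (1 - u) ^ (j - k) * μ.real (B \ V t) ≤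
          μ.real (((B \ V t) \ A (t + 1)) ∩ ({ω | cnt A (t + 1) j ω = k + 1} ∪ WV V (t + 1) j)) := by
        rcases Nat.lt_or_ge j (k + 1) with hjk | hjk
        · rw [Nat.choose_eq_zero_of_lt hjk]
          simp only [Nat.cast_zero, zero_mul]
          exact measureReal_nonneg
        · have h7 := ih (t + 1) hbd' (k + 1) hjk _ hC'
          refine le_trans ?_ h7
          have h8 : (1 - u) * μ.real (B \ V t) ≤ μ.real ((B \ V t) \ A (t + 1)) := by linarith
          have h9 : j - k = (j - (k + 1)) + 1 := by omega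
          rw [h9, pow_succ]
          have h10 : (j.choose (k + 1) : ℝ) * l ^ (k + 1) * (1 - u) ^ (j - (k + 1)) * ((1 - u) * μ.real (B \ V t)) ≤
            (j.choose (k + 1) : ℝ) * l ^ (k + 1) * (1 - u) ^ (j - (k + 1)) * μ.real ((B \ V t) \ A (t + 1)) :=
            mul_le_mul_of_nonneg_left h8 (by positivity)
          refine le_trans (le_of_eq ?_) h10
          ring
      rw [e3]
      have h11 : ((j + 1).choose (k + 1) : ℝ) = j.choose k + j.choose (k + 1) := by
        rw [Nat.choose_succ_succ]; push_cast; ring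
      have h12 : j + 1 - (k + 1) = j - k := by omega
      rw [h12] at hV1 ⊢
      have h13 : ((j + 1).choose (k + 1) : ℝ) * l ^ (k + 1) * (1 - u) ^ (j - k) * μ.real (B \ V t) =
          l ^ (k + 1) * (1 - u) ^ (j - k) * (j.choose k : ℝ) * μ.real (B \ V t) +
          (j.choose (k + 1) : ℝ) * l ^ (k + 1) * (1 - u) ^ (j - k) * μ.real (B \ V t) := by
        rw [h11]; ring
      have h14 : ((j + 1).choose (k + 1) : ℝ) * l ^ (k + 1) * (1 - u) ^ (j - k) * (μ.real (B ∩ V t) + μ.real (B \ V t)) =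
          ((j + 1).choose (k + 1) : ℝ) * l ^ (k + 1) * (1 - u) ^ (j - k) * μ.real (B ∩ V t) +
          ((j + 1).choose (k + 1) : ℝ) * l ^ (k + 1) * (1 - u) ^ (j - k) * μ.real (B \ V t) := by ring
      rw [h14, h13]
      linarith

/-- upper bound for the probability of an exact count without violation -/
theorem cnt_le (hA : ∀ n, MeasurableSet[ℱ n] (A n)) {V : ℕ → Set Ω}
    (hV : ∀ n, MeasurableSet[ℱ n] (V n)) {l u : ℝ} (hl1 : l ≤ 1) (hu0 : 0 ≤ u) (j : ℕ) :
    ∀ t, (∀ n, t ≤ n → n < t + j → ∀ ω, ω ∉ V n → l ≤ dens μ ℱ A n ω ∧ dens μ ℱ A n ω ≤ u) →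
      ∀ k, ∀ B, MeasurableSet[ℱ t] B →
        μ.real ((B ∩ {ω | cnt A t j ω = k}) \ WV V t j) ≤ (j.choose k : ℝ) * u ^ k * (1 - l) ^ (j - k) * μ.real B := by
  induction j with
  | zero =>
    intro t _ k B _
    rw [WV_zero, sdiff_empty]
    cases k with
    | zero =>
      have e : {ω | cnt A t 0 ω = 0} = univ := by ext ω; simp [cnt]
      rw [e]
      simp
    | succ k =>
      have e : {ω | cnt A t 0 ω = k + 1} = ∅ := by ext ω; simp [cnt]
      rw [e]
      simp
  | succ j ih =>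
    intro t hbd k B hB
    have hV0 : MeasurableSet (V t) := ℱ.le _ _ (hV t)
    have hA0 : MeasurableSet (A (t + 1)) := ℱ.le _ _ (hA _)
    have hBV : MeasurableSet[ℱ t] (B \ V t) := @MeasurableSet.diff _ (ℱ t) _ _ hB (hV t)
    have hC : MeasurableSet[ℱ (t + 1)] ((B \ V t) ∩ A (t + 1)) :=
      @MeasurableSet.inter _ (ℱ (t + 1)) _ _ (ℱ.mono (Nat.le_succ t) _ hBV) (hA (t + 1))
    have hC' : MeasurableSet[ℱ (t + 1)] ((B \ V t) \ A (t + 1)) :=
      @MeasurableSet.diff _ (ℱ (t + 1)) _ _ (ℱ.mono (Nat.le_succ t) _ hBV) (hA (t + 1))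
    have hbd' : ∀ n, t + 1 ≤ n → n < t + 1 + j → ∀ ω, ω ∉ V n → l ≤ dens μ ℱ A n ω ∧ dens μ ℱ A n ω ≤ u :=
      fun n h1 h2 => hbd n (by omega) (by omega)
    have hlow := lower_meas (μ := μ) hA t hBV (l := l) (fun ω hω => (hbd t le_rfl (by omega) ω hω.2).1)
    have hupp := upper_meas (μ := μ) hA t hBV (u := u) (fun ω hω => (hbd t le_rfl (by omega) ω hω.2).2)
    have hsplit := measureReal_inter_add_sdiff (μ := μ) (s := B \ V t) hA0
    set X : Set Ω := (B ∩ {ω | cnt A t (j + 1) ω = k}) \ WV V t (j + 1) with hX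
    have hXA : μ.real X = μ.real (X ∩ A (t + 1)) + μ.real (X \ A (t + 1)) :=
      (measureReal_inter_add_sdiff (μ := μ) (s := X) hA0).symm
    have hBVB : μ.real (B \ V t) ≤ μ.real B := measureReal_mono sdiff_subset
    have hq0 : 0 ≤ 1 - l := by linarith
    have e2 : X \ A (t + 1) = (((B \ V t) \ A (t + 1)) ∩ {ω | cnt A (t + 1) j ω = k}) \ WV V (t + 1) j := by
      ext ω
      simp only [hX, WV_succ, mem_inter_iff, mem_union, mem_ofPred_eq, Set.mem_sdiff, cnt_succ]
      by_cases h : ω ∈ A (t + 1)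
      · simp [h]
      · by_cases h' : ω ∈ V t
        · simp [h, h']
        · simp [h, h']
    rw [hXA, e2]
    have h2 := ih (t + 1) hbd' k _ hC'
    have h8 : μ.real ((B \ V t) \ A (t + 1)) ≤ (1 - l) * μ.real B := by nlinarith
    cases k with
    | zero =>
      have e3 : X ∩ A (t + 1) = ∅ := by
        ext ω
        simp only [hX, mem_inter_iff, Set.mem_sdiff, mem_ofPred_eq, mem_empty_iff_false, iff_false, cnt_succ]
        intro h
        have := h.1.1.2
        rw [if_pos h.2] at this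
        omega
      rw [e3, measureReal_empty, zero_add]
      refine h2.trans ?_
      simp only [Nat.choose_zero_right, Nat.cast_one, pow_zero, mul_one, one_mul, Nat.sub_zero]
      rw [pow_succ, mul_assoc]
      exact mul_le_mul_of_nonneg_left h8 (pow_nonneg hq0 _)
    | succ k =>
      have e3 : X ∩ A (t + 1) = (((B \ V t) ∩ A (t + 1)) ∩ {ω | cnt A (t + 1) j ω = k}) \ WV V (t + 1) j := by
        ext ω
        simp only [hX, WV_succ, mem_inter_iff, mem_union, mem_ofPred_eq, Set.mem_sdiff, cnt_succ]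
        by_cases h : ω ∈ A (t + 1)
        · by_cases h' : ω ∈ V t
          · simp [h, h']
          · simp [h, h']
        · simp [h]
      have h1 := ih (t + 1) hbd' k _ hC
      rw [e3]
      have h9 : μ.real ((B \ V t) ∩ A (t + 1)) ≤ u * μ.real B :=
        hupp.trans (mul_le_mul_of_nonneg_left hBVB hu0)
      have h10 : (j.choose k : ℝ) * u ^ k * (1 - l) ^ (j - k) * μ.real ((B \ V t) ∩ A (t + 1)) ≤
          (j.choose k : ℝ) * u ^ (k + 1) * (1 - l) ^ (j - k) * μ.real B := by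
        have := mul_le_mul_of_nonneg_left h9 (show 0 ≤ (j.choose k : ℝ) * u ^ k * (1 - l) ^ (j - k) by positivity)
        refine this.trans (le_of_eq ?_)
        ring
      have h11 : (j.choose (k + 1) : ℝ) * u ^ (k + 1) * (1 - l) ^ (j - (k + 1)) * μ.real ((B \ V t) \ A (t + 1)) ≤
          (j.choose (k + 1) : ℝ) * u ^ (k + 1) * (1 - l) ^ (j - k) * μ.real B := by
        rcases Nat.lt_or_ge j (k + 1) with hjk | hjk
        · rw [Nat.choose_eq_zero_of_lt hjk]
          simp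
        · have h12 : j - k = (j - (k + 1)) + 1 := by omega
          rw [h12, pow_succ]
          have := mul_le_mul_of_nonneg_left h8 (show 0 ≤ (j.choose (k + 1) : ℝ) * u ^ (k + 1) * (1 - l) ^ (j - (k + 1)) by positivity)
          refine this.trans (le_of_eq ?_)
          ring
      have h13 : ((j + 1).choose (k + 1) : ℝ) = j.choose k + j.choose (k + 1) := by
        rw [Nat.choose_succ_succ]; push_cast; ring
      have h14 : j + 1 - (k + 1) = j - k := by omega
      rw [h14, h13]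
      have h15 : ((j.choose k : ℝ) + j.choose (k + 1)) * u ^ (k + 1) * (1 - l) ^ (j - k) * μ.real B =
        (j.choose k : ℝ) * u ^ (k + 1) * (1 - l) ^ (j - k) * μ.real B +
        (j.choose (k + 1) : ℝ) * u ^ (k + 1) * (1 - l) ^ (j - k) * μ.real B := by ring
      rw [h15]
      linarith

end Pool.Agent.R528.RM
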