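import Mathlib
import Pool.Agent.H50.G.S.R528.RM.Blocks
import Pool.Agent.H50.G.S.R528.RM.Law
set_option autoImplicit false
set_option linter.unusedSectionVars false

/-! # Tail bounds for the counts in windows -/

open MeasureTheory Filter Set
open scoped ENNReal Topology

namespace Pool.Agent.R528.RM

variable {Ω : Type} {m0 : MeasurableSpace Ω} {μ : Measure Ω} [IsProbabilityMeasure μ]
  {ℱ : Filtration ℕ m0} {A : ℕ → Set Ω}

lemma cnt_le_len (t j : ℕ) (ω : Ω) : cnt A t j ω ≤ j := by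
  classical
  unfold cnt
  calc ∑ r ∈ Finset.range j, (if ω ∈ A (t + 1 + r) then 1 else 0) ≤ ∑ r ∈ Finset.range j, 1 :=
        Finset.sum_le_sum fun r _ => by split_ifs <;> omega
    _ = j := by simp

lemma cnt_mono (t : ℕ) {j j' : ℕ} (h : j ≤ j') (ω : Ω) : cnt A t j ω ≤ cnt A t j' ω := by
  classical
  unfold cnt
  exact Finset.sum_le_sum_of_subset_of_nonneg (Finset.range_mono h) fun r _ _ => by split_ifs <;> omega

/-- the exponential bound -/
theorem tail (hA : ∀ n, MeasurableSet[ℱ n] (A n)) {V : ℕ → Set Ω}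
    (hV : ∀ n, MeasurableSet[ℱ n] (V n)) {l u : ℝ} (hl1 : l ≤ 1) (hu0 : 0 ≤ u) (t j : ℕ)
    (hbd : ∀ n, t ≤ n → n < t + j → ∀ ω, ω ∉ V n → l ≤ dens μ ℱ A n ω ∧ dens μ ℱ A n ω ≤ u)
    {s κ : ℝ} (hs : 0 < s) (S : Set ℕ) (hS : ∀ k ∈ S, s ^ κ ≤ s ^ k) :
    μ.real ({ω | cnt A t j ω ∈ S} \ WV V t j) ≤ Real.exp (-(κ * Real.log s)) * Real.exp (j * (s * u - l)) := by
  classical
  have h1 : ({ω | cnt A t j ω ∈ S} \ WV V t j) ⊆
      ⋃ k ∈ (Finset.range (j + 1)).filter (· ∈ S), ((univ ∩ {ω | cnt A t j ω = k}) \ WV V t j) := by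
    intro ω hω
    rw [mem_iUnion₂]
    refine ⟨cnt A t j ω, ?_, ⟨⟨mem_univ _, rfl⟩, hω.2⟩⟩
    rw [Finset.mem_filter, Finset.mem_range]
    exact ⟨Nat.lt_succ_of_le (cnt_le_len t j ω), hω.1⟩
  have h2 : μ.real ({ω | cnt A t j ω ∈ S} \ WV V t j) ≤
      ∑ k ∈ (Finset.range (j + 1)).filter (· ∈ S), (j.choose k : ℝ) * u ^ k * (1 - l) ^ (j - k) := by
    refine (measureReal_mono h1 (measure_ne_top _ _)).trans ((measureReal_biUnion_finset_le _ _).trans ?_)
    apply Finset.sum_le_sum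
    intro k _
    have := cnt_le (μ := μ) hA hV hl1 hu0 j t hbd k univ MeasurableSet.univ
    rwa [probReal_univ, mul_one] at this
  have hpos : 0 < s ^ κ := Real.rpow_pos_of_pos hs κ
  have hl0 : 0 ≤ 1 - l := by linarith
  have h3 : ∑ k ∈ (Finset.range (j + 1)).filter (· ∈ S), (j.choose k : ℝ) * u ^ k * (1 - l) ^ (j - k) ≤
      ∑ k ∈ Finset.range (j + 1), (s ^ κ)⁻¹ * ((s * u) ^ k * (1 - l) ^ (j - k) * (j.choose k : ℝ)) := by
    have h4 : ∑ k ∈ (Finset.range (j + 1)).filter (· ∈ S), (j.choose k : ℝ) * u ^ k * (1 - l) ^ (j - k) ≤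
        ∑ k ∈ (Finset.range (j + 1)).filter (· ∈ S), (s ^ κ)⁻¹ * ((s * u) ^ k * (1 - l) ^ (j - k) * (j.choose k : ℝ)) := by
      apply Finset.sum_le_sum
      intro k hk
      have h5 := hS k (Finset.mem_filter.1 hk).2
      have h6 : 1 ≤ (s ^ κ)⁻¹ * s ^ k := by
        rw [inv_mul_eq_div, one_le_div hpos]
        exact h5
      have h7 : 0 ≤ (j.choose k : ℝ) * u ^ k * (1 - l) ^ (j - k) := by positivity
      calc (j.choose k : ℝ) * u ^ k * (1 - l) ^ (j - k)
          ≤ ((s ^ κ)⁻¹ * s ^ k) * ((j.choose k : ℝ) * u ^ k * (1 - l) ^ (j - k)) := le_mul_of_one_le_left h7 h6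
        _ = _ := by rw [mul_pow]; ring
    refine h4.trans ?_
    apply Finset.sum_le_sum_of_subset_of_nonneg (Finset.filter_subset _ _)
    intro k _ _
    positivity
  rw [← Finset.mul_sum, ← add_pow] at h3
  refine h2.trans (h3.trans ?_)
  have h8 : (s ^ κ)⁻¹ = Real.exp (-(κ * Real.log s)) := by
    rw [Real.exp_neg, Real.rpow_def_of_pos hs, mul_comm]
  rw [h8]
  apply mul_le_mul_of_nonneg_left _ (Real.exp_pos _).le
  have h9 : s * u + (1 - l) ≤ Real.exp (s * u - l) := by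
    have := Real.add_one_le_exp (s * u - l)
    linarith
  rw [Real.exp_nat_mul]
  exact pow_le_pow_left₀ (by positivity) h9 j

/-- the violation event for first order densities -/
def VF (μ : Measure Ω) (ℱ : Filtration ℕ m0) (A : ℕ → Set Ω) (δ : ℝ) (n : ℕ) : Set Ω :=
  {ω | ¬ |dens μ ℱ A n ω * Real.log n - 1| ≤ δ}

lemma VF_meas (δ : ℝ) (n : ℕ) : MeasurableSet[ℱ n] (VF μ ℱ A δ n) := by
  have h2 : MeasurableSet {x : ℝ | ¬ |x * Real.log n - 1| ≤ δ} := by
    have : Measurable (fun x : ℝ => |x * Real.log n - 1|) := by fun_prop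
    exact (this measurableSet_Iic).compl
  exact (dens_meas n).measurable h2

lemma VF_bounds {δ L : ℝ} (hδ : δ ≤ 1) {n : ℕ} (hL : 1 ≤ L) (h1 : L ≤ Real.log n) (h2 : Real.log n ≤ L + 1)
    {ω : Ω} (hω : ω ∉ VF μ ℱ A δ n) :
    (1 - δ) / (L + 1) ≤ dens μ ℱ A n ω ∧ dens μ ℱ A n ω ≤ (1 + δ) / L := by
  simp only [VF, mem_ofPred_eq, not_not] at hω
  have h3 := abs_le.1 hω
  have h4 : 0 < Real.log n := by linarith
  constructor
  · rw [div_le_iff₀ (by linarith)]
    have h5 : 0 ≤ dens μ ℱ A n ω := by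
      by_contra hcon
      push Not at hcon
      have : dens μ ℱ A n ω * Real.log n < 0 := mul_neg_of_neg_of_pos hcon h4
      linarith
    nlinarith
  · rw [le_div_iff₀ (by linarith)]
    have h5 : 0 ≤ dens μ ℱ A n ω := by
      by_contra hcon
      push Not at hcon
      have : dens μ ℱ A n ω * Real.log n < 0 := mul_neg_of_neg_of_pos hcon h4
      linarith
    nlinarith

lemma no_VF {ω : Ω} (h : Tendsto (fun n : ℕ => dens μ ℱ A n ω * Real.log n) atTop (𝓝 1)) {δ : ℝ} (hδ : 0 < δ) :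
    ∃ n₀ : ℕ, ∀ n, n₀ ≤ n → ω ∉ VF μ ℱ A δ n := by
  rw [← eventually_atTop]
  have h1 := h.eventually (Metric.ball_mem_nhds 1 hδ)
  filter_upwards [h1] with n hn
  have hn : dist (dens μ ℱ A n ω * Real.log n) 1 < δ := hn
  rw [Real.dist_eq] at hn
  simp only [VF, mem_ofPred_eq, not_not]
  exact hn.le

/-- the rate function -/
noncomputable def II (s : ℝ) : ℝ := s * Real.log s - s + 1

/-- the window length -/
noncomputable def wl (lam : ℝ) (x : ℕ) : ℕ := ⌊lam * Real.log x ^ 2⌋₊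

lemma log_window (lam : ℝ) : ∀ᶠ x : ℕ in atTop, 2 ≤ x ∧ ∀ n, x ≤ n → n < x + wl lam x →
    Real.log x ≤ Real.log n ∧ Real.log n ≤ Real.log x + 1 := by
  have h1 : ∀ᶠ x : ℝ in atTop, |lam| * Real.log x ^ 2 ≤ x := by
    have h3 := (Real.isLittleO_pow_log_id_atTop (n := 2)).def
      (show (0 : ℝ) < 1 / (|lam| + 1) by positivity)
    filter_upwards [h3, eventually_ge_atTop 1] with x h3 h6
    rw [Real.norm_of_nonneg (by positivity), id, Real.norm_of_nonneg (by linarith)] at h3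
    have h7 : |lam| * Real.log x ^ 2 ≤ (|lam| + 1) * Real.log x ^ 2 := by
      have : 0 ≤ Real.log x ^ 2 := by positivity
      nlinarith
    have h8 : (|lam| + 1) * Real.log x ^ 2 ≤ (|lam| + 1) * (1 / (|lam| + 1) * x) :=
      mul_le_mul_of_nonneg_left h3 (by positivity)
    have h9 : (|lam| + 1) * (1 / (|lam| + 1) * x) = x := by field_simp
    linarith
  filter_upwards [tendsto_natCast_atTop_atTop.eventually h1, eventually_ge_atTop 2] with x h2 hx
  refine ⟨hx, fun n hn1 hn2 => ?_⟩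
  have hx' : (2 : ℝ) ≤ x := by exact_mod_cast hx
  have h3 : (x : ℝ) ≤ n := by exact_mod_cast hn1
  have h4 : (wl lam x : ℝ) ≤ x := by
    unfold wl
    rcases le_or_gt 0 (lam * Real.log x ^ 2) with h | h
    · refine (Nat.floor_le h).trans (le_trans ?_ h2)
      exact mul_le_mul_of_nonneg_right (le_abs_self lam) (by positivity)
    · rw [Nat.floor_of_nonpos h.le]
      simp
  have h5 : (n : ℝ) ≤ 2 * x := by
    have : (n : ℝ) < x + wl lam x := by exact_mod_cast hn2
    linarith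
  refine ⟨Real.log_le_log (by linarith) h3, ?_⟩
  have h6 : Real.log n ≤ Real.log (2 * x) := Real.log_le_log (by linarith) h5
  rw [Real.log_mul (by norm_num) (by linarith)] at h6
  have := Real.log_two_lt_d9
  linarith

/-- the tail probabilities are summable: almost surely the tail events do not occur -/
theorem er_tail (hA : ∀ n, MeasurableSet[ℱ n] (A n))
    (hd : ∀ᵐ ω ∂μ, Tendsto (fun n : ℕ => dens μ ℱ A n ω * Real.log n) atTop (𝓝 1))
    {lam s : ℝ} (hlam : 0 < lam) (hs : 0 < s) (hI : 1 < lam * II s) (S : ℕ → Set ℕ)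
    (hS : ∀ x : ℕ, ∀ k ∈ S x, s ^ (s * lam * Real.log x) ≤ s ^ k) :
    ∀ᵐ ω ∂μ, ∀ᶠ x : ℕ in atTop, cnt A x (wl lam x) ω ∉ S x := by
  -- choose `δ`
  obtain ⟨δ, hδ0, hδ1, hδ⟩ : ∃ δ : ℝ, 0 < δ ∧ δ ≤ 1 ∧ 1 < lam * (II s - δ * (s + 1)) := by
    have hgap : 0 < lam * II s - 1 := by linarith
    refine ⟨min 1 ((lam * II s - 1) / (2 * lam * (s + 1))), lt_min one_pos (by positivity), min_le_left _ _, ?_⟩
    have h1 : min 1 ((lam * II s - 1) / (2 * lam * (s + 1))) ≤ (lam * II s - 1) / (2 * lam * (s + 1)) := min_le_right _ _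
    have h2 : lam * (min 1 ((lam * II s - 1) / (2 * lam * (s + 1))) * (s + 1)) ≤
        lam * ((lam * II s - 1) / (2 * lam * (s + 1)) * (s + 1)) :=
      mul_le_mul_of_nonneg_left (mul_le_mul_of_nonneg_right h1 (by linarith)) hlam.le
    have h3 : lam * ((lam * II s - 1) / (2 * lam * (s + 1)) * (s + 1)) = (lam * II s - 1) / 2 := by field_simp
    rw [mul_sub]
    linarith
  set β : ℝ := lam * (II s - δ * (s + 1)) with hβ
  set V := VF μ ℱ A δ with hVd
  have hev := log_window lam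
  have hlog1 : ∀ᶠ x : ℕ in atTop, 1 ≤ Real.log x :=
    (Real.tendsto_log_atTop.comp tendsto_natCast_atTop_atTop).eventually_ge_atTop 1
  -- the probability bound
  have hprob : ∀ᶠ x : ℕ in atTop, μ.real ({ω | cnt A x (wl lam x) ω ∈ S x} \ WV V x (wl lam x)) ≤
      Real.exp (lam + (2 * s + 1)) * (1 / (x : ℝ) ^ β) := by
    filter_upwards [hev, hlog1] with x hx hL1
    obtain ⟨hx2, hwin⟩ := hx
    obtain ⟨L, hL⟩ : ∃ L, L = Real.log (x : ℝ) := ⟨_, rfl⟩
    have hx0 : (0 : ℝ) < x := by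
      have : 0 < x := by omega
      exact_mod_cast this
    rw [← hL] at hL1
    have h1 := tail (μ := μ) hA (V := V) (fun n => VF_meas δ n) (l := (1 - δ) / (L + 1)) (u := (1 + δ) / L)
      (by rw [div_le_one (by linarith)]; linarith) (by positivity) x (wl lam x)
      (fun n hn1 hn2 ω hω => by
        obtain ⟨h2, h3⟩ := hwin n hn1 hn2
        rw [← hL] at h2 h3
        exact VF_bounds hδ1 hL1 h2 h3 hω) hs (S x) (hS x)
    refine h1.trans ?_
    have h2 : (1 : ℝ) / (x : ℝ) ^ β = Real.exp (-(β * L)) := by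
      rw [Real.rpow_def_of_pos hx0, ← hL, one_div, ← Real.exp_neg]
      congr 1
      ring
    rw [h2, ← Real.exp_add, ← Real.exp_add]
    apply Real.exp_le_exp.2
    -- the exponent
    set H : ℝ := (wl lam x : ℝ) with hH
    have hH1 : H ≤ lam * L ^ 2 := by
      rw [hH, wl, hL]
      exact Nat.floor_le (by positivity)
    have hH2 : lam * L ^ 2 - 1 ≤ H := by
      rw [hH, wl, hL]
      exact (Nat.sub_one_lt_floor _).le
    set c : ℝ := s * ((1 + δ) / L) - (1 - δ) / (L + 1) with hc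
    have hLpos : 0 < L := by linarith
    have hc1 : |c| ≤ 2 * s + 1 := by
      have h3 : (1 + δ) / L ≤ 2 := by
        rw [div_le_iff₀ hLpos]
        nlinarith
      have h4 : 0 ≤ (1 + δ) / L := by positivity
      have h5 : (1 - δ) / (L + 1) ≤ 1 := by
        rw [div_le_one (by linarith)]
        linarith
      have h6 : 0 ≤ (1 - δ) / (L + 1) := div_nonneg (by linarith) (by linarith)
      rw [hc, abs_le]
      constructor
      · nlinarith
      · nlinarith
    have hHc : H * c ≤ lam * L ^ 2 * c + |c| := by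
      have h3 : |H - lam * L ^ 2| ≤ 1 := by
        rw [abs_le]
        constructor <;> linarith
      have h4 : (H - lam * L ^ 2) * c ≤ |c| := by
        calc (H - lam * L ^ 2) * c ≤ |(H - lam * L ^ 2) * c| := le_abs_self _
          _ = |H - lam * L ^ 2| * |c| := abs_mul _ _
          _ ≤ 1 * |c| := mul_le_mul_of_nonneg_right h3 (abs_nonneg _)
          _ = |c| := one_mul _
      linarith
    have hmain : lam * L ^ 2 * c ≤ lam * L * (s - 1 + δ * (s + 1)) + lam := by
      have h3 : lam * L ^ 2 * c = lam * L * (s * (1 + δ)) - lam * L * (1 - δ) + lam * (1 - δ) * (L / (L + 1)) := by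
        rw [hc]
        field_simp
        ring
      have h4 : L / (L + 1) ≤ 1 := by
        rw [div_le_one (by linarith)]
        linarith
      have h5 : lam * (1 - δ) * (L / (L + 1)) ≤ lam := by
        have h6 : 0 ≤ L / (L + 1) := by positivity
        have h7 : (1 - δ) * (L / (L + 1)) ≤ 1 := by nlinarith
        nlinarith
      rw [h3]
      nlinarith
    have hfin : -(s * lam * L * Real.log s) + lam * L * (s - 1 + δ * (s + 1)) = -(β * L) := by
      rw [hβ, II]
      ring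
    rw [← hL]
    linarith
  -- Borel and Cantelli
  have hsum : ∑' x : ℕ, μ ({ω | cnt A x (wl lam x) ω ∈ S x} \ WV V x (wl lam x)) ≠ ∞ := by
    have h1 : Summable (fun x : ℕ => Real.exp (lam + (2 * s + 1)) * (1 / (x : ℝ) ^ β)) :=
      (Real.summable_one_div_nat_rpow.2 hδ).mul_left _
    have h2 : Summable (fun x : ℕ => μ.real ({ω | cnt A x (wl lam x) ω ∈ S x} \ WV V x (wl lam x))) := by
      refine Summable.of_norm_bounded_eventually_nat h1 ?_
      filter_upwards [hprob] with x hx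
      rw [Real.norm_of_nonneg measureReal_nonneg]
      exact hx
    have h3 : ∑' x : ℕ, μ ({ω | cnt A x (wl lam x) ω ∈ S x} \ WV V x (wl lam x)) =
        ENNReal.ofReal (∑' x : ℕ, μ.real ({ω | cnt A x (wl lam x) ω ∈ S x} \ WV V x (wl lam x))) := by
      rw [ENNReal.ofReal_tsum_of_nonneg (fun _ => measureReal_nonneg) h2]
      congr 1
      funext i
      exact (ofReal_measureReal (measure_ne_top _ _)).symm
    rw [h3]
    exact ENNReal.ofReal_ne_top
  filter_upwards [ae_eventually_notMem hsum, hd] with ω h1 h2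
  obtain ⟨n₀, hn₀⟩ := no_VF h2 hδ0
  filter_upwards [h1, eventually_ge_atTop n₀] with x hx hxn hmem
  apply hx
  refine ⟨hmem, ?_⟩
  rintro ⟨n, hn1, _, hn3⟩
  exact hn₀ n (by omega) hn3

end Pool.Agent.R528.RM
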