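import Mathlib
import Pool.Agent.H50.G.S.R528.RM.BHG
set_option autoImplicit false
set_option linter.unusedSectionVars false

/-! # An exponential inequality for predictable sums -/

open MeasureTheory Filter Set
open scoped ENNReal Topology

namespace Pool.Agent.R528.RM

variable {Ω : Type} {m0 : MeasurableSpace Ω} {μ : Measure Ω} [IsProbabilityMeasure μ]
  {ℱ : Filtration ℕ m0} {A : ℕ → Set Ω}

/-- the sum of weighted martingale differences -/
noncomputable def Sw (μ : Measure Ω) (ℱ : Filtration ℕ m0) (A : ℕ → Set Ω) (a : ℕ) (w : ℕ → Ω → ℝ) (M : ℕ) (ω : Ω) : ℝ :=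
  ∑ k ∈ Finset.range M, w k ω * ((A (a + k + 1)).indicator (fun _ => (1 : ℝ)) ω - dens μ ℱ A (a + k) ω)

lemma Sw_meas (hA : ∀ n, MeasurableSet[ℱ n] (A n)) (a : ℕ) (w : ℕ → Ω → ℝ)
    (hw : ∀ k, StronglyMeasurable[ℱ (a + k)] (w k)) (M : ℕ) :
    StronglyMeasurable[ℱ (a + M)] (Sw μ ℱ A a w M) := by
  have h1 : Sw μ ℱ A a w M = ∑ k ∈ Finset.range M, (w k * ((A (a + k + 1)).indicator (fun _ => (1 : ℝ)) - dens μ ℱ A (a + k))) := by
    funext ω
    simp [Sw]
  rw [h1]
  refine Finset.stronglyMeasurable_sum _ fun k hk => ?_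
  have hk' := Finset.mem_range.1 hk
  have h2 : StronglyMeasurable[ℱ (a + M)] (w k) := (hw k).mono (ℱ.mono (by omega))
  have h3 : StronglyMeasurable[ℱ (a + M)] ((A (a + k + 1)).indicator (fun _ => (1 : ℝ))) :=
    (@stronglyMeasurable_const _ _ (ℱ (a + M)) _ _).indicator (ℱ.mono (by omega) _ (hA (a + k + 1)))
  have h4 : StronglyMeasurable[ℱ (a + M)] (dens μ ℱ A (a + k)) := (dens_meas _).mono (ℱ.mono (by omega))
  have h5 : StronglyMeasurable[ℱ (a + M)] ((A (a + k + 1)).indicator (fun _ => (1 : ℝ)) - dens μ ℱ A (a + k)) :=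
    @StronglyMeasurable.sub _ _ _ _ (ℱ (a + M)) _ _ _ h3 h4
  exact @StronglyMeasurable.mul _ _ _ _ (ℱ (a + M)) _ _ _ h2 h5

lemma Sw_bound (hA : ∀ n, MeasurableSet[ℱ n] (A n)) (a : ℕ) (w : ℕ → Ω → ℝ)
    (hw1 : ∀ k ω, |w k ω| ≤ 1) (M : ℕ) : ∀ᵐ ω ∂μ, |Sw μ ℱ A a w M ω| ≤ M := by
  have h1 : ∀ᵐ ω ∂μ, ∀ n, 0 ≤ dens μ ℱ A n ω ∧ dens μ ℱ A n ω ≤ 1 := ae_all_iff.2 fun n => dens01 hA n
  filter_upwards [h1] with ω hω
  unfold Sw
  refine (Finset.abs_sum_le_sum_abs _ _).trans ?_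
  refine (Finset.sum_le_card_nsmul _ _ 1 fun k _ => ?_).trans (by simp)
  rw [abs_mul]
  refine mul_le_one₀ (hw1 k ω) (abs_nonneg _) ?_
  have h2 := hω (a + k)
  have h3 : (0 : ℝ) ≤ (A (a + k + 1)).indicator (fun _ => (1 : ℝ)) ω := indicator_nonneg (fun _ _ => zero_le_one) _
  have h4 : (A (a + k + 1)).indicator (fun _ => (1 : ℝ)) ω ≤ 1 := indicator_le_self' (fun _ _ => zero_le_one) ω
  rw [abs_le]
  constructor <;> linarith

theorem Sw_mgf (hA : ∀ n, MeasurableSet[ℱ n] (A n)) (a : ℕ) (w : ℕ → Ω → ℝ)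
    (hw : ∀ k, StronglyMeasurable[ℱ (a + k)] (w k)) (hw1 : ∀ k ω, |w k ω| ≤ 1) (t : ℝ) (M : ℕ) :
    ∫ ω, Real.exp (t * Sw μ ℱ A a w M ω) ∂μ ≤ Real.exp (M * (t ^ 2 / 2)) := by
  have hint : ∀ M, Integrable (fun ω => Real.exp (t * Sw μ ℱ A a w M ω)) μ := by
    intro M
    have hm : AEStronglyMeasurable (fun ω => Real.exp (t * Sw μ ℱ A a w M ω)) μ :=
      Real.continuous_exp.comp_aestronglyMeasurable
        ((((Sw_meas (μ := μ) hA a w hw M).mono (ℱ.le _)).aestronglyMeasurable).const_mul t)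
    refine Integrable.of_bound hm (Real.exp (|t| * M)) ?_
    filter_upwards [Sw_bound (μ := μ) (ℱ := ℱ) hA a w hw1 M] with ω hω
    rw [Real.norm_eq_abs, abs_of_pos (Real.exp_pos _)]
    apply Real.exp_le_exp.2
    refine (le_abs_self _).trans ?_
    rw [abs_mul]
    exact mul_le_mul_of_nonneg_left hω (abs_nonneg t)
  induction M with
  | zero => simp [Sw]
  | succ M ih =>
    set D := dens μ ℱ A (a + M) with hD
    set I := (A (a + M + 1)).indicator (fun _ => (1 : ℝ)) with hI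
    set E : Ω → ℝ := fun ω => Real.exp (t * Sw μ ℱ A a w M ω) with hE
    have hs : ∀ ω, Sw μ ℱ A a w (M + 1) ω = Sw μ ℱ A a w M ω + w M ω * (I ω - D ω) := by
      intro ω
      unfold Sw
      rw [Finset.sum_range_succ]
    have h01 := dens01 (μ := μ) (ℱ := ℱ) hA (a + M)
    have hpt : ∀ᵐ ω ∂μ, Real.exp (t * Sw μ ℱ A a w (M + 1) ω) ≤
        Real.cosh t * E ω + Real.sinh t * (E ω * w M ω * I ω - E ω * w M ω * D ω) := by
      filter_upwards [h01] with ω hω
      have hI0 : 0 ≤ I ω := indicator_nonneg (fun _ _ => zero_le_one) _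
      have hI1 : I ω ≤ 1 := indicator_le_self' (fun _ _ => zero_le_one) ω
      have hx : |w M ω * (I ω - D ω)| ≤ 1 := by
        rw [abs_mul]
        refine mul_le_one₀ (hw1 M ω) (abs_nonneg _) ?_
        rw [abs_le]
        constructor <;> linarith [hω.1, hω.2]
      have h2 := Real.exp_mul_le_cosh_add_mul_sinh hx t
      rw [hs, mul_add, Real.exp_add]
      have h3 : Real.exp (t * (w M ω * (I ω - D ω))) ≤ Real.cosh t + w M ω * (I ω - D ω) * Real.sinh t := by
        rw [mul_comm t]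
        exact h2
      calc Real.exp (t * Sw μ ℱ A a w M ω) * Real.exp (t * (w M ω * (I ω - D ω)))
          ≤ Real.exp (t * Sw μ ℱ A a w M ω) * (Real.cosh t + w M ω * (I ω - D ω) * Real.sinh t) :=
            mul_le_mul_of_nonneg_left h3 (Real.exp_pos _).le
        _ = _ := by simp only [hE]; ring
    -- the mixed term vanishes
    have hEm : StronglyMeasurable[ℱ (a + M)] E :=
      Real.continuous_exp.comp_stronglyMeasurable ((Sw_meas (μ := μ) hA a w hw M).const_mul t)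
    have hfm : StronglyMeasurable[ℱ (a + M)] (fun ω => E ω * w M ω) :=
      @StronglyMeasurable.mul _ _ _ _ (ℱ (a + M)) _ _ _ hEm (hw M)
    have hfb : ∀ᵐ ω ∂μ, ‖E ω * w M ω‖ ≤ Real.exp (|t| * M) := by
      filter_upwards [Sw_bound (μ := μ) (ℱ := ℱ) hA a w hw1 M] with ω hω
      rw [norm_mul]
      have h2 : ‖E ω‖ ≤ Real.exp (|t| * M) := by
        simp only [hE]
        rw [Real.norm_eq_abs, abs_of_pos (Real.exp_pos _)]
        apply Real.exp_le_exp.2
        refine (le_abs_self _).trans ?_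
        rw [abs_mul]
        exact mul_le_mul_of_nonneg_left hω (abs_nonneg t)
      calc ‖E ω‖ * ‖w M ω‖ ≤ Real.exp (|t| * M) * 1 := mul_le_mul h2 (hw1 M ω) (norm_nonneg _) (Real.exp_pos _).le
        _ = _ := mul_one _
    have hpull := pull_A (μ := μ) hA (a + M) hfm (Real.exp (|t| * M)) hfb
    have hfam : AEStronglyMeasurable (fun ω => E ω * w M ω) μ := (hfm.mono (ℱ.le _)).aestronglyMeasurable
    have hIam : AEStronglyMeasurable I μ :=
      ((stronglyMeasurable_const.indicator (ℱ.le _ _ (hA (a + M + 1))))).aestronglyMeasurable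
    have hDam : AEStronglyMeasurable D μ := ((dens_meas (a + M)).mono (ℱ.le _)).aestronglyMeasurable
    have i1 : Integrable (fun ω => E ω * w M ω * I ω) μ := by
      refine Integrable.of_bound (hfam.mul hIam) (Real.exp (|t| * M)) ?_
      filter_upwards [hfb] with ω hω
      rw [norm_mul]
      have hI1 : ‖I ω‖ ≤ 1 := by
        rw [Real.norm_eq_abs, abs_of_nonneg (indicator_nonneg (fun _ _ => zero_le_one) _)]
        exact indicator_le_self' (fun _ _ => zero_le_one) ω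
      calc _ ≤ Real.exp (|t| * M) * 1 := mul_le_mul hω hI1 (norm_nonneg _) (Real.exp_pos _).le
        _ = _ := mul_one _
    have i2 : Integrable (fun ω => E ω * w M ω * D ω) μ := by
      refine Integrable.of_bound (hfam.mul hDam) (Real.exp (|t| * M)) ?_
      filter_upwards [hfb, h01] with ω hω h2
      rw [norm_mul]
      have hD1 : ‖D ω‖ ≤ 1 := by
        rw [Real.norm_eq_abs, abs_of_nonneg h2.1]
        exact h2.2
      calc _ ≤ Real.exp (|t| * M) * 1 := mul_le_mul hω hD1 (norm_nonneg _) (Real.exp_pos _).le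
        _ = _ := mul_one _
    have i3 : Integrable (fun ω => Real.cosh t * E ω + Real.sinh t * (E ω * w M ω * I ω - E ω * w M ω * D ω)) μ :=
      ((hint M).const_mul _).add ((i1.sub i2).const_mul _)
    have h4 : ∫ ω, (Real.cosh t * E ω + Real.sinh t * (E ω * w M ω * I ω - E ω * w M ω * D ω)) ∂μ =
        Real.cosh t * ∫ ω, E ω ∂μ := by
      have i12 : Integrable (fun ω => E ω * w M ω * I ω - E ω * w M ω * D ω) μ := i1.sub i2
      rw [integral_add ((hint M).const_mul _) (i12.const_mul _), integral_const_mul, integral_const_mul,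
        integral_sub i1 i2, hpull, sub_self, mul_zero, add_zero]
    have h5 := integral_mono_ae (hint (M + 1)) i3 hpt
    rw [h4] at h5
    have h6 : Real.cosh t * ∫ ω, E ω ∂μ ≤ Real.exp (t ^ 2 / 2) * Real.exp (M * (t ^ 2 / 2)) := by
      apply mul_le_mul (Real.cosh_le_exp_half_sq t) ih (integral_nonneg fun ω => (Real.exp_pos _).le) (Real.exp_pos _).le
    rw [← Real.exp_add] at h6
    refine (h5.trans h6).trans (le_of_eq ?_)
    congr 1
    push_cast
    ring

/-- one-sided exponential inequality -/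
theorem Sw_tail1 (hA : ∀ n, MeasurableSet[ℱ n] (A n)) (a : ℕ) (w : ℕ → Ω → ℝ)
    (hw : ∀ k, StronglyMeasurable[ℱ (a + k)] (w k)) (hw1 : ∀ k ω, |w k ω| ≤ 1) (M : ℕ) (hM : 0 < M)
    {lam : ℝ} (hlam : 0 ≤ lam) :
    μ.real {ω | lam ≤ Sw μ ℱ A a w M ω} ≤ Real.exp (-(lam ^ 2 / (2 * M))) := by
  have hM' : (0 : ℝ) < M := by exact_mod_cast hM
  set t : ℝ := lam / M with ht
  have ht0 : 0 ≤ t := div_nonneg hlam hM'.le
  have h1 := Sw_mgf (μ := μ) hA a w hw hw1 t M
  have hm : AEStronglyMeasurable (fun ω => Real.exp (t * Sw μ ℱ A a w M ω)) μ :=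
    Real.continuous_exp.comp_aestronglyMeasurable
      ((((Sw_meas (μ := μ) hA a w hw M).mono (ℱ.le _)).aestronglyMeasurable).const_mul t)
  have hint : Integrable (fun ω => Real.exp (t * Sw μ ℱ A a w M ω)) μ := by
    refine Integrable.of_bound hm (Real.exp (|t| * M)) ?_
    filter_upwards [Sw_bound (μ := μ) (ℱ := ℱ) hA a w hw1 M] with ω hω
    rw [Real.norm_eq_abs, abs_of_pos (Real.exp_pos _)]
    apply Real.exp_le_exp.2
    refine (le_abs_self _).trans ?_
    rw [abs_mul]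
    exact mul_le_mul_of_nonneg_left hω (abs_nonneg t)
  have h2 := mul_meas_ge_le_integral_of_nonneg (μ := μ) (Eventually.of_forall fun ω => (Real.exp_pos (t * Sw μ ℱ A a w M ω)).le)
    hint (Real.exp (t * lam))
  have h3 : μ.real {ω | lam ≤ Sw μ ℱ A a w M ω} ≤ μ.real {ω | Real.exp (t * lam) ≤ Real.exp (t * Sw μ ℱ A a w M ω)} := by
    apply measureReal_mono _ (measure_ne_top _ _)
    intro ω hω
    exact Real.exp_le_exp.2 (mul_le_mul_of_nonneg_left hω ht0)
  have h4 : Real.exp (t * lam) * μ.real {ω | lam ≤ Sw μ ℱ A a w M ω} ≤ Real.exp (M * (t ^ 2 / 2)) :=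
    (mul_le_mul_of_nonneg_left h3 (Real.exp_pos _).le).trans (h2.trans h1)
  have h5 : μ.real {ω | lam ≤ Sw μ ℱ A a w M ω} ≤ Real.exp (M * (t ^ 2 / 2)) / Real.exp (t * lam) := by
    rw [le_div_iff₀ (Real.exp_pos _), mul_comm]
    exact h4
  rw [← Real.exp_sub] at h5
  refine h5.trans (le_of_eq ?_)
  congr 1
  rw [ht]
  field_simp
  ring

/-- two-sided exponential inequality -/
theorem Sw_tail (hA : ∀ n, MeasurableSet[ℱ n] (A n)) (a : ℕ) (w : ℕ → Ω → ℝ)
    (hw : ∀ k, StronglyMeasurable[ℱ (a + k)] (w k)) (hw1 : ∀ k ω, |w k ω| ≤ 1) (M : ℕ) (hM : 0 < M)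
    {lam : ℝ} (hlam : 0 ≤ lam) :
    μ.real {ω | lam ≤ |Sw μ ℱ A a w M ω|} ≤ 2 * Real.exp (-(lam ^ 2 / (2 * M))) := by
  have h1 := Sw_tail1 (μ := μ) hA a w hw hw1 M hM hlam
  have h2 := Sw_tail1 (μ := μ) hA a (fun k ω => - w k ω) (fun k => (hw k).neg) (fun k ω => by
    rw [abs_neg]; exact hw1 k ω) M hM hlam
  have h3 : ∀ ω, Sw μ ℱ A a (fun k ω => - w k ω) M ω = - Sw μ ℱ A a w M ω := by
    intro ω
    unfold Sw
    rw [← Finset.sum_neg_distrib]
    refine Finset.sum_congr rfl fun k _ => ?_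
    ring
  simp_rw [h3] at h2
  have h4 : {ω | lam ≤ |Sw μ ℱ A a w M ω|} ⊆ {ω | lam ≤ Sw μ ℱ A a w M ω} ∪ {ω | lam ≤ - Sw μ ℱ A a w M ω} := by
    intro ω hω
    rcases le_abs.1 (show lam ≤ |Sw μ ℱ A a w M ω| from hω) with h | h
    · exact Or.inl h
    · exact Or.inr h
  calc μ.real {ω | lam ≤ |Sw μ ℱ A a w M ω|} ≤ μ.real ({ω | lam ≤ Sw μ ℱ A a w M ω} ∪ {ω | lam ≤ - Sw μ ℱ A a w M ω}) :=
        measureReal_mono h4 (measure_ne_top _ _)
    _ ≤ _ := measureReal_union_le _ _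
    _ ≤ _ := by linarith

end Pool.Agent.R528.RM
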